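import Pool.Agent.Y148.KL.Top
import Pool.Agent.Y148.BB.Curve

/-!
# Murre's conjecture (D) from a condition on the kernels of the Abel-Jacobi maps
-/

open CategoryTheory AlgebraicGeometry

universe u v w

namespace Pool.Agent.Y148.KL

open Pool.Agent.H914 Pool.Agent.H914.VarClass Pool.Agent.H914.VarClass.Obj Pool.Agent.W492.BB
  Pool.Agent.W550.Corr Pool.Agent.TH133 Pool.Agent.Y110 Pool.Agent.Y110.Dfor Pool.Agent.Y148.BB

set_option linter.unusedSectionVars false
set_option linter.unusedVariables false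

variable {k : Type u} [Field k] {𝒱 : VarClass k} {C : TheoryData.{u, v, 0} 𝒱 ℚ}
  [hC : IsChowProj C] {K : Type w} [Field K]
  {H : WeilTheoryData.{u, v, w} C K} [hH : IsWeilProj H] {X Y Z W P T : 𝒱.Obj}
  {N : ∀ X : 𝒱.Obj, ℕ → Submodule ℚ (C.A X)}

/-- For `X` of dimension `2j - 1`, the kernel of the Abel-Jacobi map of `CH^j(X)` is contained in
the step `F^2` of the filtration attached to a Chow-Kunneth decomposition. -/
def KernelInStep (H : WeilTheoryData.{u, v, w} C K) (N : ∀ X : 𝒱.Obj, ℕ → Submodule ℚ (C.A X)) :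
    Prop :=
  ∀ (X : 𝒱.Obj) (j : ℕ), X.dim + 1 = 2 * j → ∀ π : ℕ → C.A (X.prod X), IsCK H X π →
    ∀ z ∈ N X j, z ∈ fil C π j 2

include hC hH

lemma mul_mem_kernel (hN : IsAbelJacobiKernel H N) {j : ℕ} {x : C.A (X.prod T)}
    (hx : x ∈ C.gr (X.prod T) j) (hx0 : H.cl x = 0) {ξ : C.A T} (hξ : ξ ∈ C.gr T 1)
    (hξ0 : H.cl ξ = 0) : x * C.pull (snd X T) ξ ∈ N (X.prod T) (j + 1) := by
  obtain ⟨Γ, hΓ, hΓx, hΓa⟩ := Realised.mul (H := H) (C.pull_mem (snd X T) hξ)
  have h1 := hN.kills (X.prod T) (X.prod T) j (j + 1) Γ (gr_congr (by push_cast; ring) hΓ)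
    (fun a _ => by
      rw [hΓa]
      change H.cl (C.pull (snd X T) ξ) * a = 0
      rw [H.cl_pull, hξ0, map_zero, zero_mul]) x hx hx0
  rw [hΓx] at h1
  change C.pull (snd X T) ξ * x ∈ _ at h1
  rwa [ch_comm C] at h1

lemma ext_mem_kernel (hN : IsAbelJacobiKernel H N) {j : ℕ} {y : C.A X}
    (hy : y ∈ C.gr X j) (hy0 : H.cl y = 0) {ξ : C.A T} (hξ : ξ ∈ C.gr T 1)
    (hξ0 : H.cl ξ = 0) : C.ext y ξ ∈ N (X.prod T) (j + 1) :=
  mul_mem_kernel hN (C.pull_mem (fst X T) hy) (by rw [H.cl_pull, hy0, map_zero]) hξ hξ0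

omit hH in
lemma push_act_tens (Γ : C.A (X.prod Y)) (Δ : C.A (Z.prod W)) (v : C.A (X.prod Z)) :
    C.push (fst Y W) (C.act (tens C Γ Δ) v) = C.act Γ (C.act (tp C v) (C.act (tp C Δ) 1)) := by
  have h1 : ∀ {V V' : 𝒱.Obj} (c : C.A (V.prod V')), C.push (fst V V') c = C.act (tp C c) 1 := by
    intro V V' c
    rw [act_tp C c 1, map_one, mul_one]
  rw [h1, act_tens C (ch_comm C), tp_comp C (ch_comm C), tp_comp C (ch_comm C), tp_tp, C.act_comp,
    C.act_comp]

omit hH in
lemma act_tp_curveCK {o : C.A T} (hT : T.dim = 1) (ho : C.Deg 1 o) (hd : HasDegree C o 1)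
    (m : ℕ) : C.act (tp C (curveCK C o m)) 1 = if m = 2 then 1 else 0 := by
  have h1 : C.act (C.ext (1 : C.A T) o) 1 = 0 := by
    apply act_ext_zero_of_lt (i := 0)
    · rw [one_mul]; exact C.one_mem T
    · rw [hT]; norm_num
  have h2 : C.act (C.ext o (1 : C.A T)) 1 = 1 := by
    rw [act_ext' (q := 1) (by rwa [mul_one]), one_smul]
  match m with
  | 0 =>
    have e : curveCK C o 0 = C.ext o 1 := rfl
    rw [e, tp_ext, h1, if_neg (by norm_num)]
  | 1 =>
    have e : curveCK C o 1 = oddProj C o := rfl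
    rw [e, tp_odd, oddProj, TheoryData.act_sub, TheoryData.act_sub, act_dg, h1, h2, sub_self,
      sub_zero, if_neg (by norm_num)]
  | 2 =>
    have e : curveCK C o 2 = C.ext 1 o := rfl
    rw [e, tp_ext, h2, if_pos rfl]
  | (m + 3) =>
    have e : curveCK C o (m + 3) = 0 := rfl
    rw [e, tp_zero, TheoryData.act_zero, if_neg (by omega)]

/-- Murre's conjecture (D) for varieties of dimension `2i` and cycles of codimension `i`. -/
theorem D_of_kernel (hN : IsAbelJacobiKernel H N) (hF : FibreProperty C)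
    (hk : KernelInStep H N) {o : C.A T} (hT : T.dim = 1) (ho : C.Deg 1 o)
    (hd : HasDegree C o 1) (ho' : H.cl (C.pull (Obj.lift (𝟙 T) (𝟙 T)) (oddProj C o)) ≠ 0)
    {i : ℕ} (hX : X.dim = 2 * i) {π : ℕ → C.A (X.prod X)} (hπ : IsCK H X π) :
    MurreDFor H π i := by
  set ρ := oddProj C o with hρ
  have hρm : ρ ∈ C.gr (T.prod T) T.dim := odd_mem hT ho
  have hρρ : C.comp ρ ρ = ρ := odd_odd hT ho hd
  have htρ : tp C ρ = ρ := tp_odd o
  have hρ1 : curveCK C o 1 = ρ := rfl
  have hcur := curveCK_isCK H hT ho hd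
  obtain ⟨q, hq⟩ := exists_hasDegree (C := C) (x := C.pull (Obj.lift (𝟙 T) (𝟙 T)) ρ)
    (C.pull_mem _ hρm)
  have hq0 : q ≠ 0 := by
    rintro rfl
    exact ho' (cl_eq_zero_of_hasDegree H (C.pull_mem _ hρm) hq)
  have hρcl : ∀ t : C.A T, t ∈ C.gr T 1 → H.cl (C.act ρ t) = 0 := by
    intro t ht
    rw [cl_act H, ← hρ1, curveCK_act H hT ho hd 1 (2 * 1) (H.cl_mem ht), if_neg (by norm_num)]
  rw [murreDFor_iff hπ]
  intro x₀ hx₀ hx₀c a ha
  set y := C.act (π a) x₀ with hy
  have hym : y ∈ C.gr X i := act_mem0 C (hπ.deg a) hx₀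
  have hyc : H.cl y = 0 := by rw [hy, cl_act H, hx₀c, TheoryData.act_map_zero]
  have hπy : ∀ l : ℕ, C.act (π l) y = if l = a then y else 0 := by
    intro l
    rw [hy, ← C.act_comp, hπ.comp_eq]
    by_cases h : a = l
    · rw [if_pos h, if_pos h.symm]
    · rw [if_neg h, if_neg (fun h' => h h'.symm), TheoryData.act_zero]
  have hdim : (X.prod T).dim + 1 = 2 * (i + 1) := by rw [dim_prod, hX, hT]; ring
  have hkk : ∀ v ∈ N (X.prod T) (i + 1), ∀ b : ℕ, 2 * i < b →
      C.act (prodCK C π (curveCK C o) b) v = 0 := by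
    intro v hv b hb
    have h1 := hk (X.prod T) (i + 1) hdim _ (hπ.prod hcur) v hv
    rw [mem_fil (hπ.prod hcur)] at h1
    exact h1.2 b (by push_cast; omega)
  -- the products with cycles of degree zero vanish
  have key1 : ∀ t : C.A T, t ∈ C.gr T 1 → C.ext y (C.act ρ t) = 0 := by
    intro t ht
    have hξm : C.act ρ t ∈ C.gr T 1 := act_mem0 C hρm ht
    have h1 := hkk _ (ext_mem_kernel hN hym hyc hξm (hρcl t ht)) (a + 1) (by omega)
    rw [← h1, prodCK, act_sum, Finset.sum_eq_single a]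
    · rw [act_tens_ext C (π a) _ (fun f c => ch_comm C _ _), hπy, if_pos rfl, Nat.add_sub_cancel_left,
        hρ1, ← C.act_comp, hρρ]
    · intro l _ hl
      rw [act_tens_ext C (π l) _ (fun f c => ch_comm C _ _), hπy, if_neg hl,
        TheoryData.ext_zero_left]
    · intro h
      exact absurd (Finset.mem_range.2 (by omega)) h
  -- the class z' on `(X × T) × T`
  set A0 := wg C (snd X T) (C.pull (fst X T) y) with hA0
  have hA0m : A0 ∈ C.gr ((X.prod T).prod T) ((X.prod T).dim + (-(i : ℤ))) := by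
    have h1 := wg_mem (snd X T) (C.pull_mem (fst X T) hym)
    exact gr_congr (by rw [dim_prod, hX, hT]; push_cast; ring) h1
  have hA0e : ∀ ξ : C.A T, C.act (tp C A0) ξ = C.ext y ξ := by
    intro ξ
    have e1 : Obj.lift (𝟙 (X.prod T)) (snd X T) ≫ snd (X.prod T) T = snd X T := lift_snd _ _
    have e2 : Obj.lift (𝟙 (X.prod T)) (snd X T) ≫ fst (X.prod T) T = 𝟙 _ := lift_fst _ _
    rw [act_tp C A0 ξ, hA0, wg, ← C.proj_right, ← C.pull_comp, e1, ← C.push_comp, e2, C.push_id]
    rfl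
  set z' := C.comp A0 ρ with hz'
  have hz'm : z' ∈ C.gr ((X.prod T).prod T) ((i : ℤ) + 1) := by
    have h1 := comp_mem C (e' := 0) hA0m (by rw [add_zero]; exact hρm)
    exact gr_congr (by rw [dim_prod, hX, hT]; push_cast; ring) h1
  have hfib : ∀ t : C.A T, C.Deg 1 t →
      C.down (fst (X.prod T) T) (C.mul z' (C.up (snd (X.prod T) T) t)) = 0 := by
    intro t ht
    have e1 : C.down (fst (X.prod T) T) (C.mul z' (C.up (snd (X.prod T) T) t)) =
        C.act (tp C z') t := (act_tp C z' t).symm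
    rw [e1, hz', tp_comp C (ch_comm C), C.act_comp, htρ, hA0e]
    exact key1 t ht
  have hspan := hF (X.prod T) T (i + 1) z' hT hz'm hfib
  -- the linear map Λ
  set δ : X.prod T ⟶ (X.prod T).prod T := Obj.lift (𝟙 _) (snd X T) with hδ
  let Λ : C.A ((X.prod T).prod T) →ₗ[ℚ] C.A X := C.actL (π a) ∘ₗ C.push (fst X T) ∘ₗ
    (C.pull δ).toLinearMap ∘ₗ (compL C).flip ρ
  have hΛ : ∀ c, Λ c = C.act (π a) (C.push (fst X T) (C.pull δ (C.comp c ρ))) := fun c => rfl
  have hΛz : Λ z' = q • y := by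
    have e0 : C.comp z' ρ = z' := by rw [hz', comp_assoc C A0 ρ ρ, hρρ]
    have e1 : δ ≫ prodMap (snd X T) (𝟙 T) = snd X T ≫ Obj.lift (𝟙 T) (𝟙 T) := by
      apply prod_ext <;> simp [hδ, prodMap, comp_lift]
    have e2 : δ ≫ fst (X.prod T) T = 𝟙 _ := lift_fst _ _
    rw [hΛ, e0, hz', hA0, wg_comp, map_mul, ← C.pull_comp, e1, ← C.pull_comp δ, e2, C.pull_id,
      C.pull_comp, C.proj_right, (hq X).2, smul_mul_assoc, one_mul, act_map_smul, hπy, if_pos rfl]
  have hΛ0 : ∀ c ∈ Submodule.span ℚ {c : C.A ((X.prod T).prod T) | ∃ (x : C.A (X.prod T))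
      (t : C.A T), C.Deg ((i : ℤ) + 1 - 1) x ∧ C.Deg 1 t ∧ c = C.ext x t}, Λ c = 0 := by
    intro c hc
    have hle : Submodule.span ℚ {c : C.A ((X.prod T).prod T) | ∃ (x : C.A (X.prod T))
        (t : C.A T), C.Deg ((i : ℤ) + 1 - 1) x ∧ C.Deg 1 t ∧ c = C.ext x t} ≤
        LinearMap.ker Λ := by
      rw [Submodule.span_le]
      rintro c ⟨x, t, hx, ht, rfl⟩
      have hx' : x ∈ C.gr (X.prod T) i := gr_congr (by ring) hx
      change Λ (C.ext x t) = 0
      set ξ := C.act ρ t with hξ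
      have hξm : ξ ∈ C.gr T 1 := act_mem0 C hρm ht
      have hρξ : C.act ρ ξ = ξ := by rw [hξ, ← C.act_comp, hρρ]
      have e1 : C.pull δ (C.ext x ξ) = x * C.pull (snd X T) ξ := by
        have e3 : δ ≫ fst (X.prod T) T = 𝟙 _ := lift_fst _ _
        have e4 : δ ≫ snd (X.prod T) T = snd X T := lift_snd _ _
        rw [TheoryData.ext, map_mul, ← C.pull_comp, ← C.pull_comp, e3, e4, C.pull_id]
      set G := C.comp ρ (C.comp (tp C x) (π a)) with hG
      have hGξ : Λ (C.ext x t) = C.act G ξ := by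
        rw [hΛ, ext_comp, ← hξ, e1, ← act_tp C x ξ, hG, C.act_comp, hρξ, C.act_comp]
      have htx : tp C x ∈ C.gr (T.prod X) (T.dim + ((i : ℤ) - 1)) := by
        have := tp_mem C hx'
        exact gr_congr (by rw [hT]; push_cast; ring) this
      have hGm : G ∈ C.gr (T.prod X) (T.dim + ((i : ℤ) - 1)) := by
        have h1 := comp_mem C (e := (i : ℤ) - 1) (e' := 0) htx
          (by rw [add_zero]; exact hπ.deg a)
        have h2 := comp_mem C (e := 0) (by rw [add_zero]; exact hρm) h1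
        exact gr_congr (by ring) h2
      have hGc : H.cl G = 0 := by
        apply hom_zero_of_act H
        intro b
        have h1 : H.actL (H.cl G) = 0 := by
          apply ext_gr H
          intro l b hb
          rw [TheoryData.actL_apply, LinearMap.zero_apply, hG, actH_comp, actH_comp, ← hρ1,
            curveCK_act H hT ho hd 1 l hb]
          split_ifs with h
          · have h2 := actH_mem H htx hb
            rw [hπ.actH_eq a _ h2, if_neg]
            rw [h]
            push_cast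
            omega
          · rw [TheoryData.act_map_zero, TheoryData.act_map_zero]
        exact LinearMap.congr_fun h1 b
      set x' := tp C G with hx'd
      have hx'm : x' ∈ C.gr (X.prod T) i := by
        have := tp_mem C hGm
        exact gr_congr (by rw [hT]; push_cast; ring) this
      have hx'c : H.cl x' = 0 := by rw [hx'd, cl_tp, hGc, tp_zero]
      set v := x' * C.pull (snd X T) ξ with hv
      have hvN : v ∈ N (X.prod T) (i + 1) := mul_mem_kernel hN hx'm hx'c hξm (hρcl t ht)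
      have hpv : C.push (fst X T) v = C.act G ξ := by
        rw [hv, ← act_tp C x' ξ, hx'd, tp_tp]
      have h1 := hkk v hvN (a + 2) (by omega)
      have h2 : C.push (fst X T) (C.act (prodCK C π (curveCK C o) (a + 2)) v) =
          C.act (π a) (C.push (fst X T) v) := by
        rw [prodCK, act_sum, map_sum, Finset.sum_eq_single a]
        · rw [push_act_tens, Nat.add_sub_cancel_left, act_tp_curveCK hT ho hd, if_pos rfl]
          rw [act_tp C v 1, map_one, mul_one]
        · intro l hl hla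
          rw [Finset.mem_range] at hl
          rw [push_act_tens, act_tp_curveCK hT ho hd, if_neg (by omega),
            TheoryData.act_map_zero, TheoryData.act_map_zero]
        · intro h
          exact absurd (Finset.mem_range.2 (by omega)) h
      rw [h1, map_zero, hpv, hG, C.act_comp, C.act_comp, ← C.act_comp, hπ.idem, ← C.act_comp,
        ← C.act_comp, ← hG] at h2
      rw [hGξ]
      exact h2.symm
    exact hle hc
  have h1 : q • y = 0 := by rw [← hΛz, hΛ0 z' hspan]
  exact (smul_eq_zero.1 h1).resolve_left hq0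

end Pool.Agent.Y148.KL
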