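import Pool.Agent.Y148.SS.Lang

/-!
# Ample classes, hyperplane sections and weak filtrations: definitions
-/

open CategoryTheory AlgebraicGeometry

universe u v w

namespace Pool.Agent.Y148.KL

open Pool.Agent.H914 Pool.Agent.H914.VarClass Pool.Agent.H914.VarClass.Obj Pool.Agent.W492.BB
  Pool.Agent.Y148.BS Pool.Agent.Y148.SS

variable {k : Type u} [Field k] {𝒱 : VarClass k} {C : TheoryData.{u, v, 0} 𝒱 ℚ}
  {K : Type w} [Field K]

/-- The morphism `i : Y ⟶ Z` behaves like the inclusion of a very general hypersurface section of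
`Z` in a multiple of the class `u`: the variety `Y` has codimension one, its class on `Z` is
homologically a non-zero multiple of `u`, and every self-correspondence of degree zero of `Y`
which acts as zero on the middle cohomology `H^(dim Y)(Y)` is homologically equivalent to the
restriction of a cycle on `Z × Z`. -/
def IsGeneralSection (H : WeilTheoryData.{u, v, w} C K) {Y Z : 𝒱.Obj} (i : Y ⟶ Z) (u : C.A Z) :
    Prop :=
  Y.dim + 1 = Z.dim ∧ (∃ c : ℚ, c ≠ 0 ∧ H.cl (C.down i 1) = H.cl (c • u)) ∧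
    ∀ Γ : C.A (Y.prod Y), C.Deg Y.dim Γ → Kills H Γ Y.dim →
      ∃ γ : C.A (Z.prod Z), C.Deg Y.dim γ ∧ H.cl Γ = H.cl (C.up (prodMap i i) γ)

/-- The formal properties of the classes `u` of ample divisors (with rational coefficients), `A X u`
meaning that `u` is such a class on `X`:
* every variety carries an ample class, and the sum of the pull-backs of ample classes on `X` and on
  `Y` is ample on `X × Y`;
* the hard Lefschetz theorem: for `m + r = dim X` the multiplication by the `r`-th power of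
  `u` is bijective from `H^m(X)` to `H^(m+2r)(X)`;
* `linear`: for `m + r = dim X` there is a variety `Y` of dimension `m` with a morphism to `X` whose
  class is homologically a non-zero multiple of the `r`-th power of `u` (a smooth linear
  section, or a point if `m = 0`);
* `general`: there is a general hypersurface section in a multiple of `u`. -/
structure HasHyperplaneSections (H : WeilTheoryData.{u, v, w} C K)
    (A : ∀ X : 𝒱.Obj, C.A X → Prop) : Prop where
  exists_ample : ∀ X : 𝒱.Obj, ∃ u : C.A X, A X u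
  deg : ∀ (X : 𝒱.Obj) (u : C.A X), A X u → C.Deg 1 u
  prod : ∀ (X Y : 𝒱.Obj) (u : C.A X) (v : C.A Y), A X u → A Y v →
    A (X.prod Y) (C.up (fst X Y) u + C.up (snd X Y) v)
  inj : ∀ (X : 𝒱.Obj) (u : C.A X), A X u → ∀ m r : ℕ, m + r = X.dim → ∀ a : H.A X,
    H.Deg m a → H.mul (H.cl (u ^ r)) a = 0 → a = 0
  surj : ∀ (X : 𝒱.Obj) (u : C.A X), A X u → ∀ m r : ℕ, m + r = X.dim → ∀ b : H.A X,
    H.Deg (m + 2 * r) b → ∃ a : H.A X, H.Deg m a ∧ b = H.mul (H.cl (u ^ r)) a
  linear : ∀ (X : 𝒱.Obj) (u : C.A X), A X u → ∀ m r : ℕ, m + r = X.dim →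
    ∃ (Y : 𝒱.Obj) (i : Y ⟶ X) (c : ℚ), Y.dim = m ∧ c ≠ 0 ∧
      H.cl (C.down i 1) = H.cl (c • u ^ r)
  general : ∀ (Z : 𝒱.Obj) (u : C.A Z), A Z u → 1 ≤ Z.dim →
    ∃ (Y : 𝒱.Obj) (i : Y ⟶ Z), IsGeneralSection H i u

/-- There is a curve `T` of positive genus `g` with a zero-cycle `o` of degree one: the zero-cycle
on `T` which is the restriction of `Δ - o × T - T × o` to the diagonal, of degree `-2g`, is not
homologically trivial. -/
def HasIrrationalCurve (H : WeilTheoryData.{u, v, w} C K) : Prop :=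
  ∃ (T : 𝒱.Obj) (o : C.A T), T.dim = 1 ∧ IsDegreeOne C o ∧
    ¬ IsHomTrivial H (C.up (Obj.lift (𝟙 T) (𝟙 T)) (oddPart C o))

/-- `F X j ν` is a descending filtration of `CH^j(X)` for all `X` and `j` such that `F^0` is
everything, some `F^n` is zero (`n` may depend on `X` and `j`), and a self-correspondence of
degree zero of `X` which acts as zero on `H^(2j-ν)(X)` maps `F^ν` to `F^(ν+1)`. -/
structure IsFiniteFiltration (H : WeilTheoryData.{u, v, w} C K) (F : Filtrations C) : Prop where
  anti : ∀ (X : 𝒱.Obj) (j ν : ℕ) (z : C.A X), F.Has j (ν + 1) z → F.Has j ν z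
  zero : ∀ (X : 𝒱.Obj) (j : ℕ) (z : C.A X), F.Has j 0 z ↔ C.Deg j z
  finite : ∀ (X : 𝒱.Obj) (j : ℕ), ∃ n : ℕ, ∀ z : C.A X, F.Has j n z → z = 0
  motivic : ∀ (X : 𝒱.Obj) (j ν : ℕ) (Γ : C.A (X.prod X)), C.Deg X.dim Γ →
    Kills H Γ (2 * j - ν) → ∀ z : C.A X, F.Has j ν z → F.Has j (ν + 1) (C.act Γ z)

end Pool.Agent.Y148.KL
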