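import Pool.Agent.Y148.KL.Lang
import Pool.Agent.Y148.BB.Corr
import Pool.Agent.Y110.Weak2

/-!
# The Kunneth conjecture and left inverses of the Lefschetz operators
-/

open CategoryTheory AlgebraicGeometry

universe u v w

namespace Pool.Agent.Y148.KL

open Pool.Agent.H914 Pool.Agent.H914.VarClass Pool.Agent.H914.VarClass.Obj Pool.Agent.W492.BB
  Pool.Agent.W550.Corr Pool.Agent.TH133 Pool.Agent.Y148.BB

set_option linter.unusedSectionVars false
set_option linter.unusedVariables false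

variable {k : Type u} [Field k] {𝒱 : VarClass k} {C : TheoryData.{u, v, 0} 𝒱 ℚ}
  [hC : IsChowProj C] {K : Type w} [Field K]
  {H : WeilTheoryData.{u, v, w} C K} [hH : IsWeilProj H] {X Y Z W P : 𝒱.Obj}

include hC hH

section basic

variable (H)

lemma actH_graph (f : X ⟶ Y) (a : H.A X) : H.act (H.cl (C.graph f)) a = H.push f a := by
  have : H.cl (C.graph f) = H.graph f := by
    rw [TheoryData.graph, TheoryData.graph, H.cl_push, map_one]
  rw [this, H.act_graph]

lemma actH_cograph (f : X ⟶ Y) (a : H.A Y) : H.act (H.cl (C.cograph f)) a = H.pull f a := by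
  have : H.cl (C.cograph f) = H.cograph f := by
    rw [TheoryData.cograph, TheoryData.cograph, H.cl_push, map_one]
  rw [this, H.act_cograph]

lemma actH_mulCorr (c : C.A X) (a : H.A X) : H.act (H.cl (C.mulCorr c)) a = H.cl c * a := by
  have : H.cl (C.mulCorr c) = H.mulCorr (H.cl c) := by
    rw [TheoryData.mulCorr, TheoryData.mulCorr, H.cl_push]
  rw [this, H.act_mulCorr]

omit hH in
lemma tp_graph (f : X ⟶ Y) : tp C (C.graph f) = C.cograph f := by
  have e : Obj.lift (𝟙 X) f ≫ sw X Y = Obj.lift f (𝟙 X) := by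
    apply prod_ext <;> simp [sw, comp_lift]
  rw [tp_eq_push, TheoryData.graph, ← C.push_comp, e]
  rfl

lemma actH_pull_prodMap (f : Y ⟶ X) (g : Z ⟶ W) (Γ : C.A (X.prod W)) (a : H.A Y) :
    H.act (H.cl (C.pull (prodMap f g) Γ)) a = H.pull g (H.act (H.cl Γ) (H.push f a)) := by
  have h1 := wg_comp_comp (C := C) f g 1 1 Γ
  have h2 : C.ext (1 : C.A Y) (1 : C.A Z) = 1 := by
    rw [TheoryData.ext, map_one, map_one, one_mul]
  rw [h2, mul_one] at h1
  rw [← h1, actH_comp, actH_comp]
  have h3 : wg C f (1 : C.A Y) = C.graph f := rfl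
  have h4 : wg C g (1 : C.A Z) = C.graph g := rfl
  rw [h3, h4, tp_graph, actH_graph, actH_cograph]

/-- The multiplication by a rational scalar. -/
lemma cl_smul_one (q : ℚ) (z : C.A X) : H.cl (q • z) = H.cl (q • (1 : C.A X)) * H.cl z := by
  rw [← map_mul, smul_mul_assoc, one_mul]

lemma cl_inv_smul {q : ℚ} (hq : q ≠ 0) (a : H.A X) :
    H.cl (q⁻¹ • (1 : C.A X)) * (H.cl (q • (1 : C.A X)) * a) = a := by
  rw [← mul_assoc, ← map_mul, smul_mul_smul_comm, inv_mul_cancel₀ hq, one_smul, one_mul, map_one,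
    one_mul]

lemma smul_one_mem (q : ℚ) : q • (1 : C.A X) ∈ C.gr X 0 := Submodule.smul_mem _ _ (C.one_mem X)

lemma act_pull_fst_mul (u : C.A X) (τ : H.A (X.prod Y)) (a : H.A X) :
    H.act (H.cl (C.pull (fst X Y) u) * τ) a = H.act τ (H.cl u * a) := by
  have h1 : H.pull (fst X Y) (H.cl u * a) = H.cl (C.pull (fst X Y) u) * H.pull (fst X Y) a := by
    rw [map_mul, H.cl_pull]
  rw [TheoryData.act_apply, TheoryData.act_apply, h1, ← mul_assoc, ← H.cl_central _ τ]

lemma act_pull_snd_mul (u : C.A Y) (τ : H.A (X.prod Y)) (a : H.A X) :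
    H.act (H.cl (C.pull (snd X Y) u) * τ) a = H.cl u * H.act τ a := by
  rw [TheoryData.act_apply, TheoryData.act_apply, mul_assoc, H.cl_pull, H.proj_left]

end basic

/-- For a general section the Lefschetz operator in the degree below the middle has an algebraic
left inverse. -/
lemma exists_inverse_of_general (hK : KunnethConjecture H) {A : ∀ X : 𝒱.Obj, C.A X → Prop}
    (hA : HasHyperplaneSections H A) {U : C.A Z} (hU : A Z U) {n : ℕ} (hn : Z.dim = n + 2) :
    ∃ γ ∈ C.gr (Z.prod Z) (Z.dim + (-1)), ∀ b ∈ H.gr Z n, H.act (H.cl γ) (H.cl U * b) = b := by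
  obtain ⟨Y, i, hdim, ⟨c, hc, hcl⟩, hgen⟩ := hA.general Z U hU (by omega)
  obtain ⟨π, hπ, hπa⟩ := hK Y n
  obtain ⟨γ, hγ, hγcl⟩ := hgen π hπ (fun a ha => by
    rw [hπa _ a ha, if_neg]
    intro h
    have : Y.dim = n := by exact_mod_cast h
    omega)
  have hγ' : γ ∈ C.gr (Z.prod Z) (Z.dim + (-1)) := by
    refine gr_congr ?_ hγ
    rw [← hdim]
    push_cast
    ring
  have hUm : H.cl U ∈ H.gr Z (2 * 1) := H.cl_mem (hA.deg Z U hU)
  have hpp : ∀ b : H.A Z, H.push i (H.pull i b) = H.cl (c • (1 : C.A Z)) * (H.cl U * b) := by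
    intro b
    have h1 : H.push i (1 * H.pull i b) = H.push i 1 * b := H.proj_right i 1 b
    rw [one_mul] at h1
    have h2 : H.push i (1 : H.A Y) = H.cl (C.push i 1) := by rw [H.cl_push, map_one H.cl]
    have h3 : H.cl (C.push i 1) = H.cl (c • U) := hcl
    rw [h1, h2, h3, cl_smul_one, mul_assoc]
  have hinj : ∀ b ∈ H.gr Z n, H.pull i b = 0 → b = 0 := by
    intro b hb h0
    have h1 := hpp b
    rw [h0, map_zero] at h1
    have h2 : H.cl U * b = 0 := by
      rw [← cl_inv_smul H hc (H.cl U * b), ← h1, mul_zero]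
    apply hA.inj Z U hU n 2 (by omega) b hb
    change H.cl (U ^ 2) * b = 0
    rw [pow_two, map_mul, mul_assoc, h2, mul_zero]
  refine ⟨C.comp (C.mulCorr (c • 1)) γ, ?_, fun b hb => ?_⟩
  · have h1 : C.mulCorr (c • (1 : C.A Z)) ∈ C.gr (Z.prod Z) (Z.dim + 0) := by
      have h := C.push_mem (Obj.lift (𝟙 Z) (𝟙 Z)) (smul_one_mem H (X := Z) c)
      have e1 : (0 : ℤ) + 1 * (((Z.prod Z).dim : ℤ) - (Z.dim : ℤ)) = Z.dim + 0 := by
        rw [dim_prod]; push_cast; ring
      rwa [e1] at h
    have h2 := comp_mem C h1 hγ'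
    rwa [zero_add] at h2
  · rw [actH_comp, actH_mulCorr]
    have hx : b - H.act (H.cl γ) (H.cl (c • (1 : C.A Z)) * (H.cl U * b)) ∈ H.gr Z n := by
      apply Submodule.sub_mem _ hb
      have h1 : H.cl (c • (1 : C.A Z)) * (H.cl U * b) ∈ H.gr Z (n + 2) := by
        have h2 := H.mul_mem (H.cl_mem (smul_one_mem H (X := Z) c)) (H.mul_mem hUm hb)
        have e1 : 2 * (0 : ℤ) + (2 * 1 + (n : ℤ)) = n + 2 := by ring
        rwa [e1] at h2
      have h2 := actH_mem H hγ' h1
      have e1 : (n : ℤ) + 2 + 2 * (-1) = n := by ring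
      rwa [e1] at h2
    have h3 : H.pull i (b - H.act (H.cl γ) (H.cl (c • (1 : C.A Z)) * (H.cl U * b))) = 0 := by
      rw [map_sub, ← hpp, ← actH_pull_prodMap H i i γ, ← hγcl, hπa n _ (H.pull_mem i hb),
        if_pos rfl, sub_self]
    exact (sub_eq_zero.1 (hinj _ hx h3)).symm

/-- The inverse of the Lefschetz operator `H^(dim X - 1)(X) → H^(dim X + 1)(X)`, as a class `ω` on
`X × X`; the product of `ω` with `u × X + X × u` is the sum of two Kunneth projectors. -/
lemma exists_omega {A : ∀ X : 𝒱.Obj, C.A X → Prop} (hA : HasHyperplaneSections H A) {u : C.A X}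
    (hu : A X u) {n : ℕ} (hn : X.dim = n + 1) {κ κ' : C.A (X.prod X)} (hκ : C.Deg X.dim κ)
    (hκa : ∀ (l : ℤ) (a : H.A X), H.Deg l a → H.act (H.cl κ) a = if l = n + 2 then a else 0)
    (hκa' : ∀ (l : ℤ) (a : H.A X), H.Deg l a → H.act (H.cl κ') a = if l = n then a else 0) :
    ∃ ω ∈ H.gr (X.prod X) (2 * n), (∀ x ∈ H.gr X n, H.act ω (H.cl u * x) = x) ∧
      H.cl (C.pull (fst X X) u + C.pull (snd X X) u) * ω = H.cl (κ + κ') := by
  have hum : H.cl u ∈ H.gr X (2 * 1) := H.cl_mem (hA.deg X u hu)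
  -- κ is idempotent on the cohomology
  have hκκ : ∀ a : H.A X, H.act (H.cl κ) (H.act (H.cl κ) a) = H.act (H.cl κ) a := by
    intro a
    have h1 : H.actL (H.cl κ) ∘ₗ H.actL (H.cl κ) = H.actL (H.cl κ) := by
      apply ext_gr H
      intro l x hx
      change H.act (H.cl κ) (H.act (H.cl κ) x) = H.act (H.cl κ) x
      rw [hκa l x hx]
      split_ifs with h
      · rw [hκa l x hx, if_pos h]
      · rw [TheoryData.act_map_zero]
    exact LinearMap.congr_fun h1 a
  -- the class ω0
  have h0 : ∃ ω₀ ∈ H.gr (X.prod X) (2 * n), H.cl κ = H.cl (C.pull (snd X X) u) * ω₀ := by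
    have hΦ : H.extRL (H.cl κ) X (H.cl κ) = H.cl κ := by
      have h1 : H.extRL (H.cl κ) X (H.cl κ) = H.comp (H.cl κ) (H.cl κ) := by
        rw [TheoryData.extRL_apply, ← comp_eq_extR]
      rw [h1, ← sub_eq_zero]
      apply eq_zero_of_act H
      intro a
      rw [TheoryData.act_sub, H.act_comp, hκκ, sub_self]
    have hmem := H.kunneth X X (2 * X.dim) (H.cl_mem hκ)
    have key : ∀ x ∈ Submodule.span K {c | ∃ (l : ℤ) (a : H.A X) (b : H.A X), a ∈ H.gr X l ∧
        b ∈ H.gr X (2 * X.dim - l) ∧ c = H.pull (fst X X) a * H.pull (snd X X) b},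
        ∃ ω₀ ∈ H.gr (X.prod X) (2 * n),
          H.extRL (H.cl κ) X x = H.cl (C.pull (snd X X) u) * ω₀ := by
      intro x hx
      induction hx using Submodule.span_induction with
      | mem x hx =>
        obtain ⟨l, a, b, ha, hb, rfl⟩ := hx
        have h1 : H.extRL (H.cl κ) X (H.pull (fst X X) a * H.pull (snd X X) b) =
            H.pull (fst X X) a * H.pull (snd X X) (H.act (H.cl κ) b) := by
          have h2 := H.extR_ext (Z := X) (H.cl κ) (fun c => by
            rw [← H.cl_pull, H.cl_central]) a b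
          exact h2
        rw [h1, hκa _ b hb]
        split_ifs with h
        · have hb' : H.Deg (n + 2 * (1 : ℕ)) b := by
            change b ∈ H.gr X _
            have e1 : (n : ℤ) + 2 * (1 : ℕ) = 2 * X.dim - l := by rw [h]; push_cast; ring
            rw [e1]
            exact hb
          obtain ⟨b', hb'm, hb'e⟩ := hA.surj X u hu n 1 (by omega) b hb'
          have hb'e' : b = H.cl u * b' := by rw [hb'e, pow_one]
          refine ⟨H.pull (fst X X) a * H.pull (snd X X) b', ?_, ?_⟩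
          · have h2 := H.mul_mem (H.pull_mem (fst X X) ha) (H.pull_mem (snd X X) hb'm)
            have e1 : l + (n : ℤ) = 2 * n := by
              rw [hn] at h
              push_cast at h
              linarith
            rwa [e1] at h2
          · rw [hb'e', map_mul, H.cl_pull, ← mul_assoc, ← mul_assoc, ← H.cl_pull,
              H.cl_central]
        · refine ⟨0, Submodule.zero_mem _, ?_⟩
          rw [map_zero, mul_zero, mul_zero]
      | zero => exact ⟨0, Submodule.zero_mem _, by rw [map_zero, mul_zero]⟩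
      | add x y _ _ hx hy =>
        obtain ⟨a, ha, ha'⟩ := hx
        obtain ⟨b, hb, hb'⟩ := hy
        exact ⟨a + b, Submodule.add_mem _ ha hb, by rw [map_add, ha', hb', mul_add]⟩
      | smul r x _ hx =>
        obtain ⟨a, ha, ha'⟩ := hx
        exact ⟨r • a, Submodule.smul_mem _ _ ha, by rw [map_smul, ha', mul_smul_comm]⟩
    obtain ⟨ω₀, h1, h2⟩ := key _ hmem
    exact ⟨ω₀, h1, by rw [← h2, hΦ]⟩
  obtain ⟨ω₀, hω₀, hω₀κ⟩ := h0
  have hL : ∀ a : H.A X, H.cl u * H.act ω₀ a = H.act (H.cl κ) a := by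
    intro a
    rw [hω₀κ, act_pull_snd_mul]
  have hact : ∀ a : H.A X, H.act (H.comp (H.cl κ) ω₀) a = H.act ω₀ (H.act (H.cl κ) a) :=
    fun a => H.act_comp _ _ a
  have hωm : H.comp (H.cl κ) ω₀ ∈ H.gr (X.prod X) (2 * n) := by
    have h := H.push_mem (t13 X X X) (H.mul_mem (H.pull_mem (t23 X X X) hω₀)
      (H.pull_mem (fst (X.prod X) X) (H.cl_mem hκ)))
    have e1 : 2 * (n : ℤ) + 2 * X.dim +
        2 * (((X.prod X).dim : ℤ) - (((X.prod X).prod X).dim : ℤ)) = 2 * n := by
      simp only [dim_prod]; push_cast; ring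
    rwa [e1] at h
  have hactm : ∀ (l : ℤ) (a : H.A X), a ∈ H.gr X l →
      H.act (H.comp (H.cl κ) ω₀) a ∈ H.gr X (l - 2) := by
    intro l a ha
    rw [TheoryData.act_apply]
    have h := H.push_mem (snd X X) (H.mul_mem hωm (H.pull_mem (fst X X) ha))
    have e1 : 2 * (n : ℤ) + l + 2 * ((X.dim : ℤ) - ((X.prod X).dim : ℤ)) = l - 2 := by
      rw [dim_prod, hn]; push_cast; ring
    rwa [e1] at h
  have hinv : ∀ x ∈ H.gr X n, H.act (H.comp (H.cl κ) ω₀) (H.cl u * x) = x := by
    intro x hx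
    have hux : H.cl u * x ∈ H.gr X (n + 2) := by
      have h := H.mul_mem hum hx
      have e1 : 2 * 1 + (n : ℤ) = n + 2 := by ring
      rwa [e1] at h
    have h1 : H.cl u * (H.act (H.comp (H.cl κ) ω₀) (H.cl u * x) - x) = 0 := by
      rw [mul_sub, hact, hL, hκκ, hκa _ _ hux, if_pos rfl, sub_self]
    have h2 : H.act (H.comp (H.cl κ) ω₀) (H.cl u * x) - x ∈ H.gr X n := by
      apply Submodule.sub_mem _ _ hx
      have h3 := hactm _ _ hux
      have e1 : (n : ℤ) + 2 - 2 = n := by ring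
      rwa [e1] at h3
    have h3 := hA.inj X u hu n 1 (by omega) _ h2 (by
      change H.cl (u ^ 1) * _ = 0
      rw [pow_one]
      exact h1)
    exact sub_eq_zero.1 h3
  refine ⟨H.comp (H.cl κ) ω₀, hωm, hinv, ?_⟩
  rw [← sub_eq_zero]
  apply eq_zero_of_act H
  intro a
  have h1 : H.actL (H.cl (C.pull (fst X X) u + C.pull (snd X X) u) * H.comp (H.cl κ) ω₀ -
      H.cl (κ + κ')) = 0 := by
    apply ext_gr H
    intro l x hx
    rw [TheoryData.actL_apply, TheoryData.act_sub, map_add, map_add, add_mul, TheoryData.act_add,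
      TheoryData.act_add, act_pull_fst_mul, act_pull_snd_mul, hact x, hL, hκκ, LinearMap.zero_apply,
      hκa' l x hx]
    split_ifs with h
    · subst h
      rw [hinv x hx]
      abel
    · have hux : H.cl u * x ∈ H.gr X (l + 2) := by
        have h := H.mul_mem hum hx
        have e1 : 2 * 1 + l = l + 2 := by ring
        rwa [e1] at h
      rw [hact, hκa _ _ hux, if_neg (by omega), TheoryData.act_map_zero]
      abel
  exact LinearMap.congr_fun h1 a

end Pool.Agent.Y148.KL
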