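import Pool.Agent.Y148.KL.Lef

/-!
# The Kunneth conjecture and left inverses of the Lefschetz operators, continued
-/

open CategoryTheory AlgebraicGeometry

universe u v w

namespace Pool.Agent.Y148.KL

open Pool.Agent.H914 Pool.Agent.H914.VarClass Pool.Agent.H914.VarClass.Obj Pool.Agent.W492.BB
  Pool.Agent.W550.Corr Pool.Agent.TH133 Pool.Agent.Y148.BB

set_option linter.unusedSectionVars false
set_option linter.unusedVariables false

variable {k : Type u} [Field k] {𝒱 : VarClass k} {C : TheoryData.{u, v, 0} 𝒱 ℚ}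
  [hC : IsChowProj C] {K : Type w} [Field K]
  {H : WeilTheoryData.{u, v, w} C K} [hH : IsWeilProj H] {X Y Z W P : 𝒱.Obj}

include hC hH

variable (H) in
/-- Zero-cycles of degree zero are homologically trivial. -/
lemma cl_eq_zero_of_hasDegree {x : C.A X} (hx : x ∈ C.gr X X.dim) (h : HasDegree C x 0) :
    H.cl x = 0 := by
  obtain ⟨o, ho, ho1, ho2⟩ := exists_deg_one C X
  apply tr_mul_eq_zero H _ (H.cl_mem hx)
  have h1 : H.tr X (H.push (snd X X) (H.pull (fst X X) (H.cl o) * H.pull (snd X X) (H.cl x))) =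
      H.tr X (H.cl x) := by
    rw [H.proj_right, ← H.cl_pull, ← H.cl_push, ho2 X, map_one, one_mul]
  have h2 : H.tr X (H.push (fst X X) (H.pull (fst X X) (H.cl o) * H.pull (snd X X) (H.cl x))) =
      0 := by
    rw [H.proj_left, ← H.cl_pull, ← H.cl_push, (h X).2, zero_smul, map_zero, mul_zero, map_zero]
  rw [← h1, H.tr_push, ← H.tr_push (fst X X), h2]

/-- The Lefschetz operator in the degree `dim X - 1` has an algebraic inverse. -/
lemma exists_left_inverse_one (hK : KunnethConjecture H) {A : ∀ X : 𝒱.Obj, C.A X → Prop}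
    (hA : HasHyperplaneSections H A) {u : C.A X} (hu : A X u) {n : ℕ} (hn : X.dim = n + 1) :
    ∃ w ∈ C.gr (X.prod X) (X.dim + (-1)), ∀ x ∈ H.gr X n, H.act (H.cl w) (H.cl u * x) = x := by
  obtain ⟨κ, hκ, hκa⟩ := hK X (n + 2)
  obtain ⟨κ', hκ', hκa'⟩ := hK X n
  obtain ⟨ω, hω, hωu, hωκ⟩ := exists_omega hA hu hn (κ' := κ') hκ
    (fun l a ha => by rw [hκa l a ha]; push_cast; rfl) hκa'
  obtain ⟨γ, hγ, hγb⟩ := exists_inverse_of_general hK hA (hA.prod X X u u hu hu) (n := 2 * n)
    (by rw [dim_prod, hn]; ring)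
  refine ⟨C.act γ (κ + κ'), act_mem' C hγ (Submodule.add_mem _ hκ hκ'), fun x hx => ?_⟩
  have h1 : H.cl (C.act γ (κ + κ')) = ω := by
    rw [cl_act H, ← hωκ]
    exact hγb ω (by push_cast; exact hω)
  rw [h1]
  exact hωu x hx

/-- The powers of the Lefschetz operator have algebraic left inverses. -/
lemma exists_left_inverse_succ (hK : KunnethConjecture H) {A : ∀ X : 𝒱.Obj, C.A X → Prop}
    (hA : HasHyperplaneSections H A) {u : C.A X} (hu : A X u) {m r : ℕ}
    (h : m + (r + 1) = X.dim) :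
    ∃ θ ∈ C.gr (X.prod X) (X.dim + (-(r + 1))), ∀ a ∈ H.gr X m,
      H.act (H.cl θ) (H.cl (u ^ (r + 1)) * a) = a := by
  obtain ⟨P, iP, cP, hPdim, -⟩ := hA.linear X u hu r (m + 1) (by omega)
  obtain ⟨v, hv⟩ := hA.exists_ample P
  have hX' := hA.prod X P u v hu hv
  have hum := hA.deg X u hu
  have hvm := hA.deg P v hv
  obtain ⟨w, hw, hwx⟩ := exists_left_inverse_one hK hA hX' (n := m + 2 * r)
    (by rw [dim_prod, hPdim]; omega)
  -- the degree of the power of v
  have hpow : ∀ (j : ℕ), v ^ j ∈ C.gr P j := by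
    intro j
    induction j with
    | zero => rw [pow_zero]; exact_mod_cast C.one_mem P
    | succ j ih =>
      rw [pow_succ]
      have := C.mul_mem ih hvm
      exact_mod_cast this
  obtain ⟨q, hq⟩ := exists_hasDegree (C := C) (x := v ^ r) (by rw [hPdim]; exact hpow r)
  have hq0 : q ≠ 0 := by
    rintro rfl
    have h1 := cl_eq_zero_of_hasDegree H (x := v ^ r) (by rw [hPdim]; exact hpow r) hq
    have h2 := hA.inj P v hv 0 r (by omega) 1 (by exact_mod_cast H.one_mem P) (by
      change H.cl (v ^ r) * 1 = 0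
      rw [h1, zero_mul])
    exact hH.one_ne_zero P h2
  set s : ℚ := ((-1) ^ r * q) with hs
  have hs0 : s ≠ 0 := mul_ne_zero (pow_ne_zero _ (by norm_num)) hq0
  -- the class G
  set a0 : C.A (X.prod P) := C.pull (fst X P) u with ha0
  set b0 : C.A (X.prod P) := -C.pull (snd X P) v with hb0
  set G : C.A (X.prod P) := ∑ i ∈ Finset.range (r + 1), a0 ^ i * b0 ^ (r + 1 - 1 - i) with hG
  have ha0m : ∀ j : ℕ, a0 ^ j ∈ C.gr (X.prod P) j := by
    intro j
    induction j with
    | zero => rw [pow_zero]; exact_mod_cast C.one_mem _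
    | succ j ih =>
      rw [pow_succ]
      have := C.mul_mem ih (C.pull_mem (fst X P) hum)
      exact_mod_cast this
  have hb0p : ∀ j : ℕ, b0 ^ j = C.pull (snd X P) ((-v) ^ j) := by
    intro j
    rw [map_pow, map_neg]
  have hnv : ∀ j : ℕ, (-v) ^ j ∈ C.gr P j := by
    intro j
    rw [neg_pow]
    have h1 : (-1 : C.A P) ^ j ∈ C.gr P 0 := by
      rcases neg_one_pow_eq_or (C.A P) j with h | h
      · rw [h]; exact C.one_mem P
      · rw [h]; exact Submodule.neg_mem _ (C.one_mem P)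
    have h2 := C.mul_mem h1 (hpow j)
    rwa [zero_add] at h2
  have hGm : G ∈ C.gr (X.prod P) r := by
    apply Submodule.sum_mem
    intro i hi
    rw [Finset.mem_range] at hi
    have h1 := C.mul_mem (ha0m i) (C.pull_mem (snd X P) (hnv (r + 1 - 1 - i)))
    rw [← hb0p] at h1
    exact gr_congr (by omega) h1
  have hb0z : b0 ^ (r + 1) = 0 := by
    rw [hb0p, hC.gr_top P _ _ (hnv (r + 1)) (by rw [hPdim]; push_cast; omega), map_zero]
  have hGe : (C.pull (fst X P) u + C.pull (snd X P) v) * G = a0 ^ (r + 1) := by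
    have h1 : Commute a0 b0 := ch_comm C a0 b0
    have h2 := h1.mul_geom_sum₂ (r + 1)
    have h3 : C.pull (fst X P) u + C.pull (snd X P) v = a0 - b0 := by
      rw [ha0, hb0, sub_neg_eq_add]
    rw [h3, hG, h2, hb0z, sub_zero]
  have hpG : C.push (fst X P) G = s • (1 : C.A X) := by
    rw [hG, map_sum]
    rw [Finset.sum_eq_single 0]
    · rw [pow_zero, one_mul, hb0p]
      have e1 : r + 1 - 1 - 0 = r := by omega
      rw [e1, neg_pow, hs]
      have h1 : (-1 : C.A P) ^ r * v ^ r = ((-1 : ℚ) ^ r) • v ^ r := by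
        rcases neg_one_pow_eq_or ℚ r with h | h
        · have h' : (-1 : C.A P) ^ r = 1 := by
            have := congrArg (algebraMap ℚ (C.A P)) h
            simpa using this
          rw [h, h', one_mul, one_smul]
        · have h' : (-1 : C.A P) ^ r = -1 := by
            have := congrArg (algebraMap ℚ (C.A P)) h
            simpa using this
          rw [h, h', neg_one_mul, neg_smul, one_smul]
      rw [h1, map_smul, map_smul, (hq X).2, mul_smul]
    · intro i hi hi0
      rw [Finset.mem_range] at hi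
      rw [hb0p, ha0, ← map_pow, C.proj_left,
        (hasDegree_of_ne (hnv (r + 1 - 1 - i)) (by rw [hPdim]; omega) X).2, zero_smul, mul_zero]
    · intro h0
      exact absurd (Finset.mem_range.2 (Nat.succ_pos r)) h0
  -- the correspondence θ
  obtain ⟨θ, hθ, -, hθa⟩ := (((Realised.pull (H := H) (fst X P)).comp (Realised.of hw)).comp
    (Realised.push (fst X P))).comp (Realised.mul (H := H) (smul_one_mem H (X := X) s⁻¹))
  refine ⟨θ, gr_congr ?_ hθ, fun a ha => ?_⟩
  · rw [dim_prod, hPdim]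
    push_cast
    ring
  · rw [hθa]
    change H.cl (s⁻¹ • (1 : C.A X)) * H.push (fst X P) (H.act (H.cl w)
      (H.pull (fst X P) (H.cl (u ^ (r + 1)) * a))) = a
    have h1 : H.pull (fst X P) (H.cl (u ^ (r + 1)) * a) =
        H.cl (C.pull (fst X P) u + C.pull (snd X P) v) * (H.cl G * H.pull (fst X P) a) := by
      rw [← mul_assoc, ← map_mul H.cl, hGe, map_mul, ← H.cl_pull, map_pow, ha0, map_pow]
    have h2 : H.cl G * H.pull (fst X P) a ∈ H.gr (X.prod P) ((m + 2 * r : ℕ) : ℤ) := by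
      have h3 := H.mul_mem (H.cl_mem hGm) (H.pull_mem (fst X P) ha)
      have e1 : 2 * (r : ℤ) + m = ((m + 2 * r : ℕ) : ℤ) := by push_cast; ring
      rwa [e1] at h3
    rw [h1, hwx _ h2, H.proj_right, ← H.cl_push, hpG, cl_inv_smul H hs0]

/-- The powers of the Lefschetz operator have algebraic left inverses. -/
lemma exists_left_inverse (hK : KunnethConjecture H) {A : ∀ X : 𝒱.Obj, C.A X → Prop}
    (hA : HasHyperplaneSections H A) {u : C.A X} (hu : A X u) {m r : ℕ} (h : m + r = X.dim) :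
    ∃ θ ∈ C.gr (X.prod X) (X.dim + (-r)), ∀ a ∈ H.gr X m,
      H.act (H.cl θ) (H.cl (u ^ r) * a) = a := by
  rcases r with _ | r
  · refine ⟨dg C X, gr_congr (by push_cast; ring) (dg_mem C X), fun a _ => ?_⟩
    rw [pow_zero, map_one, one_mul, actH_dg]
  · obtain ⟨θ, hθ, hθa⟩ := exists_left_inverse_succ hK hA hu h
    exact ⟨θ, gr_congr (by push_cast; ring) hθ, hθa⟩

/-- Below the middle the cohomology in degree `m` is a direct summand of the cohomology of a variety
of dimension `m`, for algebraic correspondences. -/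
lemma exists_summand (hK : KunnethConjecture H) {A : ∀ X : 𝒱.Obj, C.A X → Prop}
    (hA : HasHyperplaneSections H A) (X : 𝒱.Obj) {m : ℕ} (hm : m ≤ X.dim) :
    ∃ (Y : 𝒱.Obj) (f : C.A (X.prod Y)) (g : C.A (Y.prod X)), Y.dim = m ∧
      f ∈ C.gr (X.prod Y) X.dim ∧ g ∈ C.gr (Y.prod X) Y.dim ∧
      ∀ a ∈ H.gr X m, H.act (H.cl g) (H.act (H.cl f) a) = a := by
  obtain ⟨u, hu⟩ := hA.exists_ample X
  obtain ⟨r, hr⟩ := Nat.exists_eq_add_of_le hm
  obtain ⟨Y, i, c, hY, hc, hcl⟩ := hA.linear X u hu m r hr.symm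
  obtain ⟨θ, hθ, hθa⟩ := exists_left_inverse hK hA hu hr.symm
  obtain ⟨f, hf, -, hfa⟩ := Realised.pull (H := H) i
  obtain ⟨g, hg, -, hga⟩ := ((Realised.push (H := H) i).comp (Realised.of hθ)).comp
    (Realised.mul (H := H) (smul_one_mem H (X := X) c⁻¹))
  refine ⟨Y, f, g, hY, gr_congr (by ring) hf, gr_congr ?_ hg, fun a ha => ?_⟩
  · rw [hY, hr]
    push_cast
    ring
  · rw [hfa, hga]
    change H.cl (c⁻¹ • (1 : C.A X)) * H.act (H.cl θ) (H.push i (H.pull i a)) = a
    have h1 : H.push i (1 * H.pull i a) = H.push i 1 * a := H.proj_right i 1 a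
    rw [one_mul] at h1
    have h2 : H.push i (1 : H.A Y) = H.cl (C.push i 1) := by rw [H.cl_push, map_one H.cl]
    have h3 : H.cl (C.push i 1) = H.cl (c • u ^ r) := hcl
    have h4 : H.cl (c • u ^ r) * a = H.cl (u ^ r) * (H.cl (c • (1 : C.A X)) * a) := by
      rw [cl_smul_one, ← mul_assoc, H.cl_central (c • (1 : C.A X)) (H.cl (u ^ r))]
    have h5 : H.cl (c • (1 : C.A X)) * a ∈ H.gr X m := by
      have h6 := H.mul_mem (H.cl_mem (smul_one_mem H (X := X) c)) ha
      rwa [mul_zero, zero_add] at h6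
    rw [h1, h2, h3, h4, hθa _ h5, cl_inv_smul H hc]

end Pool.Agent.Y148.KL
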