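import Pool.Agent.Y148.KL.AJ

/-!
# Bloch-Beilinson filtrations and the kernels of the Abel-Jacobi maps in dimension `2j - 1`
-/

open CategoryTheory AlgebraicGeometry

universe u v w

namespace Pool.Agent.Y148.KL

open Pool.Agent.H914 Pool.Agent.H914.VarClass Pool.Agent.H914.VarClass.Obj Pool.Agent.W492.BB
  Pool.Agent.W550.Corr Pool.Agent.TH133 Pool.Agent.Y110 Pool.Agent.Y110.Dfor Pool.Agent.Y148.BB

set_option linter.unusedSectionVars false
set_option linter.unusedVariables false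

variable {k : Type u} [Field k] {𝒱 : VarClass k} {C : TheoryData.{u, v, 0} 𝒱 ℚ}
  [hC : IsChowProj C] {K : Type w} [Field K]
  {H : WeilTheoryData.{u, v, w} C K} [hH : IsWeilProj H] {X Y Z W P T : 𝒱.Obj}
  {N : ∀ X : 𝒱.Obj, ℕ → Submodule ℚ (C.A X)}

include hC hH

/-- (D) in the middle dimension implies (D) (see also `Pool.Agent.Y110.Main`). -/
theorem D_of_middle (h : ∀ (X : 𝒱.Obj) (π : ℕ → C.A (X.prod X)), IsCK H X π → ∀ i : ℕ,
    X.dim = 2 * i → MurreDFor H π i) {X : 𝒱.Obj} {π : ℕ → C.A (X.prod X)} (hπ : IsCK H X π)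
    (i : ℕ) : MurreDFor H π i := by
  rw [murreDFor_iff hπ]
  intro x hx hcl j hj
  by_cases hi : i ≤ X.dim
  swap
  · have h1 : x = 0 := hC.gr_top X i x hx (by exact_mod_cast not_le.1 hi)
    rw [h1, TheoryData.act_map_zero]
  by_cases h2i : 2 * i ≤ 2 * X.dim
  swap
  · omega
  obtain ⟨u, hu, v, hv, huv⟩ := exists_dual_pair (C := C) (H := H) X hi
  have hγ : C.ext v x ∈ C.gr (X.prod X) X.dim := by
    have := ext_mem (C := C) (H := H) hv hx
    rwa [sub_add_cancel] at this
  have hγcl : H.cl (C.ext v x) = 0 := by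
    rw [TheoryData.ext, map_mul, H.cl_pull, H.cl_pull, hcl, map_zero, mul_zero]
  have h1 : C.comp (C.comp (π (2 * i)) (C.ext v x)) (π j) = 0 := by
    apply comp_zero_of_prod (H := H) hπ hπ h2i
    have h3 := (murreDFor_iff (hπ.dual.prod hπ) X.dim).1
      (h _ _ (hπ.dual.prod hπ) X.dim (by rw [dim_prod]; ring))
    exact h3 _ hγ hγcl _ (by omega)
  have h2 : C.act (C.comp (C.comp (π (2 * i)) (C.ext v x)) (π j)) u = 0 := by
    rw [h1, TheoryData.act_zero]
  rw [C.act_comp, C.act_comp, TH133.act_ext (H := H)] at h2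
  have hwm : C.act (π (2 * i)) u ∈ C.gr X i := act_mem0 C (hπ.deg _) hu
  have h3 : C.push (snd X X) (C.pull (fst X X) (v * C.act (π (2 * i)) u)) = 1 := by
    rw [← huv]
    apply deg_eq_of_cl (H := H)
    · have := C.mul_mem hv hwm
      rwa [sub_add_cancel] at this
    · have := C.mul_mem hv hu
      rwa [sub_add_cancel] at this
    · rw [map_mul, map_mul, cl_act H]
      congr 1
      have h4 := H.cl_mem hu
      exact hπ.act_self (2 * i) _ (by exact_mod_cast h4)
  rwa [h3, one_mul] at h2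

/-- The Kunneth conjecture follows from the existence of Chow-Kunneth decompositions. -/
lemma kunneth_of_CK (h : ∀ X : 𝒱.Obj, ∃ π, IsCK H X π) : KunnethConjecture H := by
  intro X m
  obtain ⟨π, hπ⟩ := h X
  exact ⟨π m, hπ.deg m, fun l a ha => hπ.actH_eq m l ha⟩

/-- The step `F^2` is the kernel of the Abel-Jacobi map. -/
theorem two_eq_kernel (hK : KunnethConjecture H) {A : ∀ X : 𝒱.Obj, C.A X → Prop}
    (hA : HasHyperplaneSections H A) (hN : IsAbelJacobiKernel H N) (hk : KernelInStep H N)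
    {F : Filtration C} (hF : IsFiniteMotivic H F) (X : 𝒱.Obj) (j : ℕ) : F.F X j 2 = N X j := by
  obtain ⟨hCK, hfil, hone, -, hst⟩ := main_forward hK hF
  -- the case of small weight
  have small : ∀ (X : 𝒱.Obj) (j : ℕ), 1 ≤ j → 2 * j ≤ X.dim + 1 → ∀ z ∈ N X j, F.Mem j 2 z := by
    intro X j hj hjX z hz
    obtain ⟨hzm, hzc⟩ := hN.deg X j z hz
    have hz1 : F.Mem j 1 z := (hone X j z).2 ⟨hzm, hzc⟩
    obtain ⟨Y, f, g, hY, hf, hg, hfg⟩ := exists_summand hK hA X (m := 2 * j - 1) (by omega)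
    have hΓ : dg C X - C.comp f g ∈ C.gr (X.prod X) X.dim :=
      comp_mem_of (H := H) (e := 0) (by rwa [add_zero]) (by rwa [sub_zero])
    have h1 := hst.shift X X j j 1 (dg C X - C.comp f g) (by rwa [add_sub_cancel_right])
      (Or.inr ⟨hK, fun a ha => by
        have ha' : a ∈ H.gr X ((2 * j - 1 : ℕ) : ℤ) := by
          have e1 : ((2 * j - 1 : ℕ) : ℤ) = 2 * (j : ℤ) - (1 : ℕ) := by omega
          rw [e1]
          exact ha
        rw [actH_sub_comp, hfg a ha', sub_self]⟩) z hz1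
    rw [act_sub_comp] at h1
    have h2 : C.act f z ∈ N Y j := hN.stable X Y j j f (by rwa [add_sub_cancel_right]) z hz
    obtain ⟨π, hπ⟩ := hCK Y
    have h3 : F.Mem j 2 (C.act f z) := by
      change C.act f z ∈ F.F Y j 2
      rw [hfil Y π hπ j 2]
      exact hk Y j (by omega) π hπ _ h2
    have h4 : F.Mem j 2 (C.act g (C.act f z)) :=
      hst.stable Y X j j 2 g (by rwa [add_sub_cancel_right]) _ h3
    have h5 := Submodule.add_mem _ h1 h4
    rwa [sub_add_cancel] at h5
  apply le_antisymm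
  · -- the step `F^2` is contained in the kernel
    intro z hz
    obtain ⟨π, hπ⟩ := hCK X
    have hz1 : F.Mem j 1 z := F.anti X j 1 hz
    obtain ⟨hzm, hzc⟩ := (hone X j z).1 hz1
    have hz' : z ∈ fil C π j 2 := by
      have := hfil X π hπ j 2
      rw [← Nat.cast_ofNat, ← this]
      exact hz
    rw [mem_fil hπ] at hz'
    have h1 : z = ∑ b ∈ Finset.range (2 * X.dim + 1), C.act (π b) z := by
      rw [← act_sum, hπ.sum, act_dg]
    rw [h1]
    apply Submodule.sum_mem
    intro b _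
    by_cases hb : 2 * (j : ℤ) - 2 < b
    · rw [hz'.2 b hb]
      exact Submodule.zero_mem _
    · exact hN.kills X X j j (π b) (by rw [add_sub_cancel_right]; exact hπ.deg b)
        (fun a ha => hπ.act_ne b _ a (by omega) ha) z hzm hzc
  · -- the kernel is contained in the step `F^2`
    intro z hz
    obtain ⟨hzm, hzc⟩ := hN.deg X j z hz
    have hz1 : F.Mem j 1 z := (hone X j z).2 ⟨hzm, hzc⟩
    rcases Nat.eq_zero_or_pos j with hj | hj
    · subst hj
      rw [top_of_motivic hK hA hF X 0 z hz1]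
      exact Submodule.zero_mem _
    by_cases hjd : j ≤ X.dim
    swap
    · rw [hC.gr_top X j z hzm (by omega)]
      exact Submodule.zero_mem _
    by_cases hjX : 2 * j ≤ X.dim + 1
    · exact small X j hj hjX z hz
    obtain ⟨u, hu⟩ := hA.exists_ample X
    obtain ⟨e, he⟩ : ∃ e : ℕ, e + X.dim + 1 = 2 * j := ⟨2 * j - 1 - X.dim, by omega⟩
    obtain ⟨j', hj'⟩ : ∃ j' : ℕ, j' + j = X.dim + 1 := ⟨X.dim + 1 - j, by omega⟩
    obtain ⟨m', hm'⟩ : ∃ m' : ℕ, m' + e = X.dim := ⟨X.dim - e, by omega⟩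
    obtain ⟨θ, hθ, hθa⟩ := exists_left_inverse hK hA hu hm'
    have hue : u ^ e ∈ C.gr X e := by
      have hpow : ∀ s : ℕ, u ^ s ∈ C.gr X s := by
        intro s
        induction s with
        | zero => rw [pow_zero]; exact_mod_cast C.one_mem X
        | succ s ih =>
          rw [pow_succ]
          have := C.mul_mem ih (hA.deg X u hu)
          exact_mod_cast this
      exact hpow e
    obtain ⟨M, hM, hMx, hMa⟩ := Realised.mul (H := H) hue
    have hΓ : dg C X - C.comp θ M ∈ C.gr (X.prod X) X.dim :=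
      comp_mem_of (H := H) (e := -(e : ℤ)) hθ (by rwa [sub_neg_eq_add])
    have h1 := hst.shift X X j j 1 (dg C X - C.comp θ M) (by rwa [add_sub_cancel_right])
      (Or.inr ⟨hK, fun a ha => by
        have ha' : H.Deg (m' + 2 * e) a := by
          change a ∈ H.gr X _
          have e1 : (m' : ℤ) + 2 * e = 2 * (j : ℤ) - (1 : ℕ) := by omega
          rw [e1]
          exact ha
        obtain ⟨b, hb, hab⟩ := hA.surj X u hu m' e hm' a ha'
        have hab' : a = H.cl (u ^ e) * b := hab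
        rw [actH_sub_comp, hMa]
        change a - H.cl (u ^ e) * H.act (H.cl θ) a = 0
        rw [hab', hθa b hb, sub_self]⟩) z hz1
    rw [act_sub_comp] at h1
    have h2 : C.act θ z ∈ N X j' :=
      hN.stable X X j j' θ (gr_congr (by omega) hθ) z hz
    have h3 : F.Mem j' 2 (C.act θ z) := small X j' (by omega) (by omega) _ h2
    have h4 : F.Mem j 2 (C.act M (C.act θ z)) :=
      hst.stable X X j' j 2 M (gr_congr (by omega) hM) _ h3
    have h5 := Submodule.add_mem _ h1 h4
    rwa [sub_add_cancel] at h5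

/-- **Bloch-Beilinson filtrations and the kernels of the Abel-Jacobi maps.** -/
theorem tfae_kernel {A : ∀ X : 𝒱.Obj, C.A X → Prop} (hA : HasHyperplaneSections H A)
    (hN : IsAbelJacobiKernel H N) (hF : FibreProperty C) {o : C.A T} (hT : T.dim = 1)
    (ho : C.Deg 1 o) (hd : HasDegree C o 1)
    (ho' : H.cl (C.pull (Obj.lift (𝟙 T) (𝟙 T)) (oddProj C o)) ≠ 0) :
    List.TFAE [KunnethConjecture H ∧
        ∃ F : ∀ X : 𝒱.Obj, ℕ → ℕ → Submodule ℚ (C.A X),
          IsBlochBeilinsonOn H N (fun _ => True) F,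
      KunnethConjecture H ∧ ∃ F : Filtration C, IsFiniteMotivic H F ∧
        ∀ (X : 𝒱.Obj) (j : ℕ), ∀ z ∈ N X j, F.Mem j 2 z,
      (∀ X : 𝒱.Obj, ∃ π, IsCK H X π) ∧ KernelInStep H N] := by
  tfae_have 1 → 2 := by
    rintro ⟨hK, F, hF⟩
    refine ⟨hK, ⟨F, fun X i n z hz => ?_, fun X i n => hF.anti X trivial i n⟩, ⟨?_, ?_, ?_⟩, ?_⟩
    · have h1 : ∀ n : ℕ, ∀ z ∈ F X i n, z ∈ F X i 0 := by
        intro n
        induction n with
        | zero => exact fun z hz => hz
        | succ n ih => exact fun z hz => ih z (hF.anti X trivial i n hz)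
      exact (hF.zero X trivial i z).1 (h1 n z hz)
    · exact fun X i x => hF.zero X trivial i x
    · refine fun X i => ⟨i + 1, fun x hx => ?_⟩
      have hx' : x ∈ F X i (i + 1) := hx
      rw [hF.top X trivial i] at hx'
      exact (Submodule.mem_bot _).1 hx'
    · intro _ X i n Γ hΓ hk x hx
      exact hF.shift X X trivial trivial i i n Γ (by rw [add_sub_cancel_right]; exact hΓ) hk x hx
    · intro X j z hz
      change z ∈ F X j 2
      rw [hF.two X trivial j]
      exact hz
  tfae_have 2 → 3 := by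
    rintro ⟨hK, F, hF, hF2⟩
    obtain ⟨hCK, hfil, -⟩ := main_forward hK hF
    refine ⟨hCK, fun X j _ π hπ z hz => ?_⟩
    have h1 : z ∈ F.F X j 2 := hF2 X j z hz
    rw [hfil X π hπ j 2] at h1
    exact_mod_cast h1
  tfae_have 3 → 1 := by
    rintro ⟨hCK, hk⟩
    have hK := kunneth_of_CK hCK
    have hD : ∀ (X : 𝒱.Obj) (π : ℕ → C.A (X.prod X)), IsCK H X π → ∀ i : ℕ,
        MurreDFor H π i := fun X π hπ i => D_of_middle
      (fun X π hπ i hX => D_of_kernel hN hF hk hT ho hd ho' hX hπ) hπ i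
    obtain ⟨F, hFm⟩ := main_backward hCK hD
    obtain ⟨-, hfil, hone, -, hst⟩ := main_forward hK hFm
    refine ⟨hK, F.F, fun X _ j ν => F.anti X j ν, fun X _ j z => hFm.zero X j z,
      fun X _ j z => hone X j z, fun X _ j => two_eq_kernel hK hA hN hk hFm X j,
      fun X _ j => (Submodule.eq_bot_iff _).2 fun z hz => top_of_motivic hK hA hFm X j z hz,
      fun X Y _ _ j i ν Γ hΓ z hz => hst.stable X Y j i ν Γ hΓ z hz,
      fun X Y _ _ j i ν Γ hΓ hk' z hz => hst.shift X Y j i ν Γ hΓ (Or.inr ⟨hK, hk'⟩) z hz⟩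
  tfae_finish

end Pool.Agent.Y148.KL
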