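import Pool.Agent.Y148.KL.Main

/-!
# Nilpotence from the kernels of the Abel-Jacobi maps
-/

open CategoryTheory AlgebraicGeometry

universe u v w

namespace Pool.Agent.Y148.KL

open Pool.Agent.H914 Pool.Agent.H914.VarClass Pool.Agent.H914.VarClass.Obj Pool.Agent.W492.BB
  Pool.Agent.W550.Corr Pool.Agent.TH133 Pool.Agent.Y110 Pool.Agent.Y110.Dfor Pool.Agent.Y148.BB

set_option linter.unusedSectionVars false
set_option linter.unusedVariables false

variable {k : Type u} [Field k] {𝒱 : VarClass k} {C : TheoryData.{u, v, 0} 𝒱 ℚ}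
  [hC : IsChowProj C] {X Y Z W P T V : 𝒱.Obj}

section chow

include hC

/-- A class `y` on `V` whose products with the zero-cycles of degree zero on `T` vanish is
algebraically trivial: a multiple of it is a sum of classes `x_* ξ` with `ξ` of degree zero on
`T`. -/
lemma mem_span_of_ext_zero (hF : FibreProperty C) {o : C.A T} (hT : T.dim = 1) (ho : C.Deg 1 o)
    (hd : HasDegree C o 1) {q : ℚ}
    (hq : HasDegree C (C.pull (Obj.lift (𝟙 T) (𝟙 T)) (oddProj C o)) q) {i : ℕ} {y : C.A V}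
    (hy : y ∈ C.gr V i) (h0 : ∀ t ∈ C.gr T 1, C.ext y (C.act (oddProj C o) t) = 0) :
    q • y ∈ Submodule.span ℚ {c | ∃ (x : C.A (V.prod T)) (t : C.A T), x ∈ C.gr (V.prod T) i ∧
      t ∈ C.gr T 1 ∧
      c = C.push (fst V T) (x * C.pull (snd V T) (C.act (oddProj C o) t))} := by
  set ρ := oddProj C o with hρ
  have hρm : ρ ∈ C.gr (T.prod T) T.dim := odd_mem hT ho
  have hρρ : C.comp ρ ρ = ρ := odd_odd hT ho hd
  have htρ : tp C ρ = ρ := tp_odd o
  set A0 := wg C (snd V T) (C.pull (fst V T) y) with hA0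
  have hA0m : A0 ∈ C.gr ((V.prod T).prod T) ((V.prod T).dim + ((i : ℤ) - V.dim)) := by
    have h1 := wg_mem (snd V T) (C.pull_mem (fst V T) hy)
    exact gr_congr (by rw [dim_prod, hT]; push_cast; ring) h1
  have hA0e : ∀ ξ : C.A T, C.act (tp C A0) ξ = C.ext y ξ := by
    intro ξ
    have e1 : Obj.lift (𝟙 (V.prod T)) (snd V T) ≫ snd (V.prod T) T = snd V T := lift_snd _ _
    have e2 : Obj.lift (𝟙 (V.prod T)) (snd V T) ≫ fst (V.prod T) T = 𝟙 _ := lift_fst _ _
    rw [act_tp C A0 ξ, hA0, wg, ← C.proj_right, ← C.pull_comp, e1, ← C.push_comp, e2, C.push_id]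
    rfl
  set z' := C.comp A0 ρ with hz'
  have hz'm : z' ∈ C.gr ((V.prod T).prod T) ((i : ℤ) + 1) := by
    have h1 := comp_mem C (e' := 0) hA0m (by rw [add_zero]; exact hρm)
    exact gr_congr (by rw [dim_prod, hT]; push_cast; ring) h1
  have hfib : ∀ t : C.A T, C.Deg 1 t →
      C.down (fst (V.prod T) T) (C.mul z' (C.up (snd (V.prod T) T) t)) = 0 := by
    intro t ht
    have e1 : C.down (fst (V.prod T) T) (C.mul z' (C.up (snd (V.prod T) T) t)) =
        C.act (tp C z') t := (act_tp C z' t).symm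
    rw [e1, hz', tp_comp C (ch_comm C), C.act_comp, htρ, hA0e]
    exact h0 t ht
  have hspan := hF (V.prod T) T (i + 1) z' hT hz'm hfib
  set δ : V.prod T ⟶ (V.prod T).prod T := Obj.lift (𝟙 _) (snd V T) with hδ
  let Λ : C.A ((V.prod T).prod T) →ₗ[ℚ] C.A V := C.push (fst V T) ∘ₗ
    (C.pull δ).toLinearMap ∘ₗ (compL C).flip ρ
  have hΛ : ∀ c, Λ c = C.push (fst V T) (C.pull δ (C.comp c ρ)) := fun c => rfl
  have hΛz : Λ z' = q • y := by
    have e0 : C.comp z' ρ = z' := by rw [hz', comp_assoc C A0 ρ ρ, hρρ]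
    have e1 : δ ≫ prodMap (snd V T) (𝟙 T) = snd V T ≫ Obj.lift (𝟙 T) (𝟙 T) := by
      apply prod_ext <;> simp [hδ, prodMap, comp_lift]
    have e2 : δ ≫ fst (V.prod T) T = 𝟙 _ := lift_fst _ _
    rw [hΛ, e0, hz', hA0, wg_comp, map_mul, ← C.pull_comp, e1, ← C.pull_comp δ, e2, C.pull_id,
      C.pull_comp, C.proj_right, (hq V).2, smul_mul_assoc, one_mul]
  rw [← hΛz]
  have hle : Submodule.span ℚ {c : C.A ((V.prod T).prod T) | ∃ (x : C.A (V.prod T))
      (t : C.A T), C.Deg ((i : ℤ) + 1 - 1) x ∧ C.Deg 1 t ∧ c = C.ext x t} ≤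
      (Submodule.span ℚ {c | ∃ (x : C.A (V.prod T)) (t : C.A T), x ∈ C.gr (V.prod T) i ∧
        t ∈ C.gr T 1 ∧ c = C.push (fst V T) (x * C.pull (snd V T) (C.act ρ t))}).comap Λ := by
    rw [Submodule.span_le]
    rintro c ⟨x, t, hx, ht, rfl⟩
    apply Submodule.subset_span
    refine ⟨x, t, gr_congr (by ring) hx, ht, ?_⟩
    have e3 : δ ≫ fst (V.prod T) T = 𝟙 _ := lift_fst _ _
    have e4 : δ ≫ snd (V.prod T) T = snd V T := lift_snd _ _
    rw [hΛ, ext_comp, TheoryData.ext, map_mul, ← C.pull_comp, ← C.pull_comp, e3, e4, C.pull_id]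
  exact hle hspan

/-- The isomorphism of `(X × T) × Z` with `(X × Z) × T`. -/
noncomputable def sig (X T Z : 𝒱.Obj) : (X.prod T).prod Z ⟶ (X.prod Z).prod T :=
  Obj.lift (prodMap (fst X T) (𝟙 Z)) (fst (X.prod T) Z ≫ snd X T)

omit hC in
lemma sig_sig (X T Z : 𝒱.Obj) : sig X T Z ≫ sig X Z T = 𝟙 _ := by
  apply prod_ext
  · apply prod_ext <;> simp [sig, prodMap, comp_lift]
  · simp [sig, prodMap, comp_lift]

/-- If the class `ext y ξ` vanishes then `y` followed by a correspondence which factors through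
`id × ξ` vanishes. -/
lemma comp_push_eq_zero {y : C.A (Y.prod X)} {ξ : C.A T} (h : C.ext y ξ = 0)
    (x : C.A ((X.prod Z).prod T)) :
    C.comp y (C.push (fst (X.prod Z) T) (x * C.pull (snd (X.prod Z) T) ξ)) = 0 := by
  -- the correspondence `id × ξ` from `X` to `X × T`
  set E : C.A (X.prod (X.prod T)) := C.comp (C.cograph (fst X T))
    (C.mulCorr (C.pull (snd X T) ξ)) with hE
  have hmul : C.mulCorr (C.pull (snd X T) ξ) = wg C (𝟙 (X.prod T)) (C.pull (snd X T) ξ) := rfl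
  have htpm : tp C (C.mulCorr (C.pull (snd X T) ξ)) = C.mulCorr (C.pull (snd X T) ξ) := by
    have e : Obj.lift (𝟙 (X.prod T)) (𝟙 (X.prod T)) ≫ sw (X.prod T) (X.prod T) =
        Obj.lift (𝟙 (X.prod T)) (𝟙 (X.prod T)) := by
      apply prod_ext <;> simp [sw, comp_lift]
    rw [tp_eq_push, TheoryData.mulCorr, ← C.push_comp, e]
  have hpp : ∀ V V' : 𝒱.Obj, prodMap (𝟙 V) (𝟙 V') = 𝟙 (V.prod V') := by
    intro V V'
    apply prod_ext <;> simp [prodMap]
  have h1 : C.comp y E = 0 := by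
    have e1 : C.comp y (C.cograph (fst X T)) = C.pull (prodMap (𝟙 Y) (fst X T)) y := by
      have := pull_eq_comp (C := C) (fst X T) y
      rw [this, tp_graph]
    have e2 : C.comp (C.pull (prodMap (𝟙 Y) (fst X T)) y) (C.mulCorr (C.pull (snd X T) ξ)) =
        C.pull (prodMap (𝟙 Y) (fst X T)) y *
          C.pull (snd Y (X.prod T)) (C.pull (snd X T) ξ) := by
      have h2 := comp_tp_wg (C := C) (𝟙 (X.prod T)) (C.pull (snd X T) ξ)
        (C.pull (prodMap (𝟙 Y) (fst X T)) y)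
      rw [← hmul, htpm, hpp, C.pull_id] at h2
      exact h2
    have e3 : C.pull (aJ Y X T) (C.ext y ξ) = C.pull (prodMap (𝟙 Y) (fst X T)) y *
        C.pull (snd Y (X.prod T)) (C.pull (snd X T) ξ) := by
      have e4 : aJ Y X T ≫ fst (Y.prod X) T = prodMap (𝟙 Y) (fst X T) := by
        apply prod_ext <;> simp [aJ, prodMap]
      have e5 : aJ Y X T ≫ snd (Y.prod X) T = snd Y (X.prod T) ≫ snd X T := by
        simp [aJ]
      rw [TheoryData.ext, map_mul, ← C.pull_comp, ← C.pull_comp, e4, e5, C.pull_comp]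
    rw [hE, ← comp_assoc, e1, e2, ← e3, h, map_zero]
  have h2 : C.push (fst (X.prod Z) T) (x * C.pull (snd (X.prod Z) T) ξ) =
      C.comp E (C.pull (sig X T Z) x) := by
    have e1 : C.comp (C.mulCorr (C.pull (snd X T) ξ)) (C.pull (sig X T Z) x) =
        C.pull (sig X T Z) x * C.pull (fst (X.prod T) Z) (C.pull (snd X T) ξ) := by
      have h3 := wg_comp (C := C) (𝟙 (X.prod T)) (C.pull (snd X T) ξ) (C.pull (sig X T Z) x)
      rw [← hmul, hpp, C.pull_id] at h3
      exact h3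
    have e2 : ∀ Δ : C.A ((X.prod T).prod Z), C.comp (C.cograph (fst X T)) Δ =
        C.push (prodMap (fst X T) (𝟙 Z)) Δ := by
      intro Δ
      have h3 : C.comp (C.cograph (fst X T)) Δ =
          tp C (C.comp (tp C Δ) (C.graph (fst X T))) := by
        rw [tp_comp C (ch_comm C), tp_tp, tp_graph]
      have e4 : sw (X.prod T) Z ≫ prodMap (𝟙 Z) (fst X T) ≫ sw Z X =
          prodMap (fst X T) (𝟙 Z) := by
        apply prod_ext <;> simp [sw, prodMap, comp_lift]
      rw [h3, comp_graph, tp_eq_push C (C.push _ _), tp_eq_push, ← C.push_comp, ← C.push_comp, e4]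
    have e3 : C.pull (fst (X.prod T) Z) (C.pull (snd X T) ξ) =
        C.pull (sig X T Z) (C.pull (snd (X.prod Z) T) ξ) := by
      have e4 : sig X T Z ≫ snd (X.prod Z) T = fst (X.prod T) Z ≫ snd X T := lift_snd _ _
      rw [← C.pull_comp, ← C.pull_comp, e4]
    have e5 : prodMap (fst X T) (𝟙 Z) = sig X T Z ≫ fst (X.prod Z) T := (lift_fst _ _).symm
    rw [hE, comp_assoc, e1, e2, e3, ← map_mul, e5, C.push_comp,
      push_pull_iso C (sig X T Z) (sig X Z T) (sig_sig X T Z) (sig_sig X Z T)]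
  rw [h2, ← comp_assoc, h1, zero_comp]

end chow

section weil

variable {K : Type w} [Field K] {H : WeilTheoryData.{u, v, w} C K} [hH : IsWeilProj H]
  {N : ∀ X : 𝒱.Obj, ℕ → Submodule ℚ (C.A X)}

/-- For `X` of dimension `2j - 1`, `j ≥ 2`, and a self-correspondence `Γ` of degree zero which acts
as zero on `H^i(X)` for `i ≤ 2j - 2`, the operator `Γ^(j-1)` acts as zero on the kernel of the
Abel-Jacobi map of `CH^j(X)`. -/
def PowersKill (H : WeilTheoryData.{u, v, w} C K) (N : ∀ X : 𝒱.Obj, ℕ → Submodule ℚ (C.A X)) :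
    Prop :=
  ∀ (X : 𝒱.Obj) (j : ℕ), 2 ≤ j → X.dim + 1 = 2 * j → ∀ Γ : C.A (X.prod X), C.Deg X.dim Γ →
    (∀ i : ℕ, i + 2 ≤ 2 * j → Kills H Γ i) → ∀ z ∈ N X j, (C.act Γ)^[j - 1] z = 0

include hC hH

/-- Homologically trivial self-correspondences are nilpotent. -/
theorem nilpotent_of_powers (hN : IsAbelJacobiKernel H N) (hF : FibreProperty C)
    (hP : PowersKill H N) {o : C.A T} (hT : T.dim = 1) (ho : C.Deg 1 o)
    (hd : HasDegree C o 1) (ho' : H.cl (C.pull (Obj.lift (𝟙 T) (𝟙 T)) (oddProj C o)) ≠ 0)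
    {Γ : Cor C X} (hΓ : Γ ∈ cor0 C X) (hcl : H.cl (Γ : C.A (X.prod X)) = 0) :
    IsNilpotent Γ := by
  rcases Nat.eq_zero_or_pos X.dim with hd0 | hd1
  · refine ⟨1, ?_⟩
    rw [pow_one]
    have h1 : (Γ : C.A (X.prod X)) ∈ C.gr (X.prod X) 0 :=
      gr_congr (by rw [hd0]; rfl) (mem_cor0.1 hΓ)
    obtain ⟨q, hq⟩ := hC.gr_zero (X.prod X) Γ h1
    by_cases hq0 : q = 0
    · rw [hq0, zero_smul] at hq
      exact hq
    · exfalso
      have h2 : H.cl (q⁻¹ • (1 : C.A (X.prod X))) * H.cl (Γ : C.A (X.prod X)) = 1 := by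
        rw [hq, ← map_mul, smul_mul_smul_comm, inv_mul_cancel₀ hq0, one_smul, one_mul, map_one]
      rw [hcl, mul_zero] at h2
      exact hH.one_ne_zero _ h2.symm
  have hρm : oddProj C o ∈ C.gr (T.prod T) T.dim := odd_mem hT ho
  have hρ1 : curveCK C o 1 = oddProj C o := rfl
  obtain ⟨q, hq⟩ := exists_hasDegree (C := C)
    (x := C.pull (Obj.lift (𝟙 T) (𝟙 T)) (oddProj C o)) (C.pull_mem _ hρm)
  have hq0 : q ≠ 0 := by
    rintro rfl
    exact ho' (cl_eq_zero_of_hasDegree H (C.pull_mem _ hρm) hq)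
  set G : C.A (((X.prod X).prod T).prod ((X.prod X).prod T)) :=
    tens C (tens C (dg C X) Γ) (dg C T) with hG
  have hGm : G ∈ C.gr (((X.prod X).prod T).prod ((X.prod X).prod T)) ((X.prod X).prod T).dim := by
    have h1 := tens_mem C (tens_mem C (dg_mem C X) (mem_cor0.1 hΓ)) (dg_mem C T)
    exact gr_congr (by simp only [dim_prod]; push_cast; ring) h1
  have hGc : H.cl G = 0 := by
    rw [hG, cl_tens, cl_tens, hcl]
    change H.pull _ (H.pull _ _ * H.pull _ 0) * H.pull _ _ = 0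
    rw [map_zero, mul_zero, map_zero, zero_mul]
  have hact : ∀ (Γ' : C.A (X.prod X)) (ξ : C.A T),
      C.act G (C.ext Γ' ξ) = C.ext (C.comp Γ' Γ) ξ := by
    intro Γ' ξ
    rw [hG, act_tens_ext C _ _ (fun f c => ch_comm C _ _), act_dg, act_tens C (ch_comm C), tp_dg,
      dg_comp]
  have hiter : ∀ (ξ : C.A T) (n : ℕ), (C.act G)^[n] (C.ext Γ ξ) =
      C.ext ((Γ ^ (n + 1) : Cor C X) : C.A (X.prod X)) ξ := by
    intro ξ n
    induction n with
    | zero => rw [Function.iterate_zero, id_eq, zero_add, pow_one]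
    | succ n ih =>
      rw [Function.iterate_succ', Function.comp_apply, ih, hact, pow_succ' Γ (n + 1)]
      rfl
  set y : Cor C X := Γ ^ (X.dim + 1) with hy
  have hym : y ∈ cor0 C X := pow_mem hΓ _
  have hy0 : ∀ t ∈ C.gr T 1, C.ext (y : C.A (X.prod X)) (C.act (oddProj C o) t) = 0 := by
    intro t ht
    have hξm : C.act (oddProj C o) t ∈ C.gr T 1 := act_mem0 C hρm ht
    have hξc : H.cl (C.act (oddProj C o) t) = 0 := by
      rw [cl_act H, ← hρ1, curveCK_act H hT ho hd 1 (2 * 1) (H.cl_mem ht), if_neg (by norm_num)]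
    have h1 := hP ((X.prod X).prod T) (X.dim + 1) (by omega)
      (by simp only [dim_prod]; rw [hT]; ring) G hGm (fun i _ a _ => by
        rw [hGc, TheoryData.act_zero]) _ (ext_mem_kernel hN (mem_cor0.1 hΓ) hcl hξm hξc)
    rwa [hiter] at h1
  have hspan := mem_span_of_ext_zero hF hT ho hd hq (mem_cor0.1 hym) hy0
  have hle : Submodule.span ℚ {c | ∃ (x : C.A ((X.prod X).prod T)) (t : C.A T),
      x ∈ C.gr ((X.prod X).prod T) X.dim ∧ t ∈ C.gr T 1 ∧ c = C.push (fst (X.prod X) T)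
        (x * C.pull (snd (X.prod X) T) (C.act (oddProj C o) t))} ≤
      LinearMap.ker (compL C (X := X) (Y := X) (Z := X) y) := by
    rw [Submodule.span_le]
    rintro c ⟨x, t, hx, ht, rfl⟩
    exact comp_push_eq_zero (hy0 t ht) x
  have h1 : C.comp (y : C.A (X.prod X)) (q • (y : C.A (X.prod X))) = 0 := hle hspan
  have h2 : C.comp (y : C.A (X.prod X)) (q • (y : C.A (X.prod X))) =
      q • C.comp (y : C.A (X.prod X)) (y : C.A (X.prod X)) := by
    have := map_smul (compL C (X := X) (Y := X) (Z := X) y) q (y : C.A (X.prod X))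
    exact this
  rw [h2] at h1
  have h3 : y * y = 0 := (smul_eq_zero.1 h1).resolve_left hq0
  refine ⟨(X.dim + 1) + (X.dim + 1), ?_⟩
  rw [pow_add]
  exact h3

/-- The kernels of the Abel-Jacobi maps are contained in the steps `F^2`. -/
theorem kernelInStep_of_powers (hN : IsAbelJacobiKernel H N) (hP : PowersKill H N) :
    KernelInStep H N := by
  intro X j hj π hπ z hz
  rcases lt_or_ge j 2 with h2 | h2
  · obtain rfl : j = 1 := by omega
    rw [hN.abel X z hz]
    exact Submodule.zero_mem _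
  rw [mem_fil hπ]
  refine ⟨(hN.deg X j z hz).1, fun b hb => ?_⟩
  have h1 := hP X j h2 hj (π b) (hπ.deg b) (fun i hi a ha =>
    hπ.act_ne b i a (by omega) ha) z hz
  have hiter : ∀ n : ℕ, (C.act (π b))^[n + 1] z = C.act (π b) z := by
    intro n
    induction n with
    | zero => rfl
    | succ n ih => rw [Function.iterate_succ', Function.comp_apply, ih, ← C.act_comp, hπ.idem]
  obtain ⟨n, hn⟩ : ∃ n : ℕ, j - 1 = n + 1 := ⟨j - 2, by omega⟩
  rwa [hn, hiter] at h1

/-- The condition on powers for a Bloch-Beilinson filtration. -/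
theorem powers_of_BB {F : ∀ X : 𝒱.Obj, ℕ → ℕ → Submodule ℚ (C.A X)}
    (hF : IsBlochBeilinsonOn H N (fun _ => True) F) : PowersKill H N := by
  intro X j hj hX Γ hΓ hk z hz
  have key : ∀ n : ℕ, n + 1 ≤ j → (C.act Γ)^[n] z ∈ F X j (2 + n) := by
    intro n
    induction n with
    | zero =>
      intro _
      rw [Function.iterate_zero, id_eq, add_zero, hF.two X trivial j]
      exact hz
    | succ n ih =>
      intro hn
      rw [Function.iterate_succ', Function.comp_apply]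
      obtain ⟨i, hi⟩ : ∃ i : ℕ, i + (2 + n) = 2 * j := ⟨2 * j - (2 + n), by omega⟩
      have e1 : (2 * (j : ℤ) - ((2 + n : ℕ) : ℤ)) = i := by omega
      exact hF.shift X X trivial trivial j j (2 + n) Γ (by rw [add_sub_cancel_right]; exact hΓ)
        (by rw [e1]; exact hk i (by omega)) _ (ih (by omega))
  have h1 := key (j - 1) (by omega)
  have e1 : 2 + (j - 1) = j + 1 := by omega
  rw [e1, hF.top X trivial j] at h1
  exact (Submodule.mem_bot _).1 h1

/-- **Bloch-Beilinson filtrations and the kernels of the Abel-Jacobi maps, final form.** -/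
theorem tfae_powers {A : ∀ X : 𝒱.Obj, C.A X → Prop} (hA : HasHyperplaneSections H A)
    (hN : IsAbelJacobiKernel H N) (hF : FibreProperty C) {o : C.A T} (hT : T.dim = 1)
    (ho : C.Deg 1 o) (hd : HasDegree C o 1)
    (ho' : H.cl (C.pull (Obj.lift (𝟙 T) (𝟙 T)) (oddProj C o)) ≠ 0) :
    List.TFAE [KunnethConjecture H ∧
        ∃ F : ∀ X : 𝒱.Obj, ℕ → ℕ → Submodule ℚ (C.A X),
          IsBlochBeilinsonOn H N (fun _ => True) F,
      (∀ X : 𝒱.Obj, ∃ π, IsCK H X π) ∧ KernelInStep H N,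
      KunnethConjecture H ∧ PowersKill H N] := by
  have h := tfae_kernel hA hN hF hT ho hd ho'
  tfae_have 1 ↔ 2 := h.out 0 2
  tfae_have 1 → 3 := by
    rintro ⟨hK, F, hF⟩
    exact ⟨hK, powers_of_BB hF⟩
  tfae_have 3 → 2 := by
    rintro ⟨hK, hP⟩
    exact ⟨fun X => exists_isCK_of_nilpotent hK fun Γ hΓ hcl =>
      nilpotent_of_powers hN hF hP hT ho hd ho' hΓ hcl, kernelInStep_of_powers hN hP⟩
  tfae_finish

end weil

end Pool.Agent.Y148.KL
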