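import Pool.Agent.Y148.KL.Lef2

/-!
# The vanishing of `F^(i+1) CH^i(X)`
-/

open CategoryTheory AlgebraicGeometry

universe u v w

namespace Pool.Agent.Y148.KL

open Pool.Agent.H914 Pool.Agent.H914.VarClass Pool.Agent.H914.VarClass.Obj Pool.Agent.W492.BB
  Pool.Agent.W550.Corr Pool.Agent.TH133 Pool.Agent.Y110 Pool.Agent.Y148.BB

set_option linter.unusedSectionVars false
set_option linter.unusedVariables false

variable {k : Type u} [Field k] {𝒱 : VarClass k} {C : TheoryData.{u, v, 0} 𝒱 ℚ}
  [hC : IsChowProj C] {K : Type w} [Field K]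
  {H : WeilTheoryData.{u, v, w} C K} [hH : IsWeilProj H] {X Y Z W P : 𝒱.Obj}

include hC hH

omit hC hH in
lemma act_sub_comp [IsChowProj C] (f : C.A (X.prod Y)) (g : C.A (Y.prod X)) (x : C.A X) :
    C.act (dg C X - C.comp f g) x = x - C.act g (C.act f x) := by
  rw [TheoryData.act_sub, act_dg, C.act_comp]

lemma actH_sub_comp (f : C.A (X.prod Y)) (g : C.A (Y.prod X)) (a : H.A X) :
    H.act (H.cl (dg C X - C.comp f g)) a = a - H.act (H.cl g) (H.act (H.cl f) a) := by
  rw [map_sub, TheoryData.act_sub, actH_dg, actH_comp]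

lemma comp_mem_of {e : ℤ} {f : C.A (X.prod Y)} {g : C.A (Y.prod X)}
    (hf : f ∈ C.gr (X.prod Y) (X.dim + e)) (hg : g ∈ C.gr (Y.prod X) (Y.dim - e)) :
    dg C X - C.comp f g ∈ C.gr (X.prod X) X.dim := by
  apply Submodule.sub_mem _ (dg_mem C X)
  have h := comp_mem C hf (e' := -e) (by rwa [← sub_eq_add_neg])
  rwa [add_neg_cancel, add_zero] at h

/-- Under the Kunneth conjecture a finite filtration with property 5 on the Chow groups of
varieties with hyperplane sections satisfies `F^(i+1) CH^i(X) = 0`. -/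
theorem top_of_motivic (hK : KunnethConjecture H) {A : ∀ X : 𝒱.Obj, C.A X → Prop}
    (hA : HasHyperplaneSections H A) {F : Filtration C} (hF : IsFiniteMotivic H F) (X : 𝒱.Obj)
    (i : ℕ) (x : C.A X) (hx : F.Mem i (i + 1) x) : x = 0 := by
  have step : ∀ n : ℕ, i + 1 ≤ n → ∀ x : C.A X, F.Mem i n x → F.Mem i (n + 1) x := by
    intro n hn x hx
    have hxi : x ∈ C.gr X i := F.le_gr X i n hx
    by_cases h2 : 2 * i < n
    · have h1 := hF.motivic hK X i n (dg C X) (dg_mem C X) (fun a ha => by
        have ha' : a ∈ H.gr X (2 * (i : ℤ) - n) := ha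
        rw [H.gr_neg X _ (by omega)] at ha'
        rw [(Submodule.mem_bot _).1 ha', TheoryData.act_map_zero]) x hx
      rwa [act_dg] at h1
    · obtain ⟨m, hm⟩ : ∃ m : ℕ, m + n = 2 * i := ⟨2 * i - n, by omega⟩
      by_cases hmd : m ≤ X.dim
      · obtain ⟨Y, f, g, hY, hf, hg, hfg⟩ := exists_summand hK hA X hmd
        have hΓ : dg C X - C.comp f g ∈ C.gr (X.prod X) X.dim :=
          comp_mem_of (H := H) (e := 0) (by rwa [add_zero]) (by rwa [sub_zero])
        have h1 := hF.motivic hK X i n (dg C X - C.comp f g) hΓ (fun a ha => by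
          have ha' : a ∈ H.gr X m := by
            have e1 : (2 * (i : ℤ) - n) = m := by omega
            rw [← e1]
            exact ha
          rw [actH_sub_comp, hfg a ha', sub_self]) x hx
        have h3 : C.act f x ∈ C.gr Y i := by
          have := act_mem' C (e := 0) (by rwa [add_zero]) hxi (Γ := f)
          rwa [add_zero] at this
        rw [act_sub_comp, hC.gr_top Y i _ h3 (by omega), TheoryData.act_map_zero, sub_zero] at h1
        exact h1
      · rw [hC.gr_top X i x hxi (by omega)]
        exact Submodule.zero_mem _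
  have h2 : ∀ n : ℕ, F.Mem i (i + 1 + n) x := by
    intro n
    induction n with
    | zero => exact hx
    | succ n ih => exact step (i + 1 + n) (by omega) x ih
  obtain ⟨N, hN⟩ := hF.finite X i
  exact hN x (mem_mono (by omega) (h2 N))

end Pool.Agent.Y148.KL
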