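import Pool.Agent.Y148.KL.Nil
import Pool.Agent.Y148.BS.Translate

/-!
# Translation of the definitions
-/

open CategoryTheory AlgebraicGeometry

universe u v w

namespace Pool.Agent.Y148.KL

open Pool.Agent.H914 Pool.Agent.H914.VarClass Pool.Agent.H914.VarClass.Obj Pool.Agent.W492.BB
  Pool.Agent.TH133 Pool.Agent.Y148 Pool.Agent.Y148.BS Pool.Agent.Y148.SS

set_option linter.unusedSectionVars false
set_option linter.unusedVariables false

variable {k : Type u} [Field k] {𝒱 : VarClass k} {C : TheoryData.{u, v, 0} 𝒱 ℚ}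
  {K : Type w} [Field K] {H : WeilTheoryData.{u, v, w} C K} {X Y Z W T P : 𝒱.Obj}

lemma inStep_iff {π : ℕ → C.A (X.prod X)} {j ν : ℕ} {z : C.A X} :
    InStep π j ν z ↔ z ∈ ckFil C π j ν := by
  constructor
  · rintro ⟨y, hy, rfl⟩
    exact ⟨y, hy, rfl⟩
  · rintro ⟨y, hy, rfl⟩
    exact ⟨y, hy, rfl⟩

lemma isChowKunneth_iff {π : ℕ → C.A (X.prod X)} : IsChowKunneth H π ↔ IsCK H X π :=
  ⟨fun h => ⟨h.deg, h.out, h.idem, h.orth, h.sum, h.act_self, h.act_ne⟩,
    fun h => ⟨h.deg, h.out, h.idem, h.orth, h.sum, h.act_self, h.act_ne⟩⟩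

/-- The filtration of the library attached to a finite filtration. -/
def toFiltration {F : Filtrations C} (hF : IsFiniteFiltration H F) : Filtration C where
  F := F
  le_gr X i n z hz := by
    have h1 : ∀ n : ℕ, ∀ z : C.A X, F.Has i n z → F.Has i 0 z := by
      intro n
      induction n with
      | zero => exact fun z hz => hz
      | succ n ih => exact fun z hz => ih z (hF.anti X i n z hz)
    exact (hF.zero X i z).1 (h1 n z hz)
  anti X i n z hz := hF.anti X i n z hz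

lemma toFiltration_motivic {F : Filtrations C} (hF : IsFiniteFiltration H F) :
    Y110.IsFiniteMotivic H (toFiltration hF) where
  zero X i x := hF.zero X i x
  finite X i := hF.finite X i
  motivic _ X i n Γ hΓ hk x hx := hF.motivic X i n Γ hΓ hk x hx

variable [hC : IsChowProj C] [hH : IsWeilProj H]

lemma kernelInStep_iff {N : Kernels C} (hN : BS.IsAbelJacobiKernel H N) :
    KernelInStep H N ↔ ∀ (X : 𝒱.Obj) (j : ℕ), 2 ≤ j → X.dim + 1 = 2 * j →
      ∀ π : ℕ → C.A (X.prod X), IsChowKunneth H π →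
        ∀ z : C.A X, N.Has j z → InStep π j 2 z := by
  constructor
  · intro h X j _ hj π hπ z hz
    have hπ' := isChowKunneth_iff.1 hπ
    rw [inStep_iff, ← Y110.fil_eq_ckFil hπ' j 2]
    exact_mod_cast h X j hj π hπ' z hz
  · intro h X j hj π hπ z hz
    rcases lt_or_ge j 2 with h2 | h2
    · obtain rfl : j = 1 := by omega
      rw [hN.abel X z hz]
      exact Submodule.zero_mem _
    have h1 := h X j h2 hj π (isChowKunneth_iff.2 hπ) z hz
    rw [inStep_iff, ← Y110.fil_eq_ckFil hπ j 2] at h1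
    exact_mod_cast h1

lemma isBlochBeilinsonOn_iff {N : Kernels C} {S : 𝒱.Obj → Prop} {F : Filtrations C} :
    BS.IsBlochBeilinsonOn H N S F ↔ BB.IsBlochBeilinsonOn H N S F := by
  constructor
  · intro h
    exact ⟨fun X hX j ν z hz => h.anti X hX j ν z hz, fun X hX j z => h.zero X hX j z,
      fun X hX j z => h.one X hX j z, fun X hX j => Submodule.ext fun z => h.two X hX j z,
      fun X hX j => (Submodule.eq_bot_iff _).2 fun z hz => h.top X hX j z hz,
      fun X Y hX hY j i ν Γ hΓ z hz => h.stable X Y hX hY j i ν Γ hΓ z hz,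
      fun X Y hX hY j i ν Γ hΓ hk z hz => h.shift X Y hX hY j i ν Γ hΓ hk z hz⟩
  · intro h
    exact ⟨fun X hX j ν z hz => h.anti X hX j ν hz, fun X hX j z => h.zero X hX j z,
      fun X hX j z => h.one X hX j z, fun X hX j z => by rw [Filtrations.Has, h.two X hX j]; rfl,
      fun X hX j z hz => by
        rw [Filtrations.Has, h.top X hX j] at hz
        exact (Submodule.mem_bot _).1 hz,
      fun X Y hX hY j i ν Γ hΓ z hz => h.stable X Y hX hY j i ν Γ hΓ z hz,
      fun X Y hX hY j i ν Γ hΓ hk z hz => h.shift X Y hX hY j i ν Γ hΓ hk z hz⟩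

/-- **Bloch-Beilinson filtrations and the kernels of the Abel-Jacobi maps.** -/
theorem powersOnKernels {A : ∀ X : 𝒱.Obj, C.A X → Prop}
    (hA : HasHyperplaneSections H A) (hT : HasIrrationalCurve H) {N : Kernels C}
    (hN : BS.IsAbelJacobiKernel H N) (hF : BS.FibreProperty C) :
    List.TFAE [
      KunnethConjecture H ∧ ∃ F : Filtrations C, BS.IsBlochBeilinsonOn H N (fun _ => True) F,
      KunnethConjecture H ∧ ∃ F : Filtrations C, IsFiniteFiltration H F ∧
        ∀ (X : 𝒱.Obj) (j : ℕ), 2 ≤ j → X.dim + 1 = 2 * j → ∀ z : C.A X, N.Has j z → F.Has j 2 z,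
      (∀ X : 𝒱.Obj, ∃ π : ℕ → C.A (X.prod X), IsChowKunneth H π) ∧
        ∀ (X : 𝒱.Obj) (j : ℕ), 2 ≤ j → X.dim + 1 = 2 * j → ∀ π : ℕ → C.A (X.prod X),
          IsChowKunneth H π → ∀ z : C.A X, N.Has j z → InStep π j 2 z,
      KunnethConjecture H ∧ ∀ (X : 𝒱.Obj) (j : ℕ), 2 ≤ j → X.dim + 1 = 2 * j →
        ∀ Γ : C.A (X.prod X), C.Deg X.dim Γ → (∀ i : ℕ, i + 2 ≤ 2 * j → Kills H Γ i) →
          ∀ z : C.A X, N.Has j z → (C.act Γ)^[j - 1] z = 0] := by
  obtain ⟨T, o, hT, ho, ho'⟩ := hT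
  rw [isDegreeOne_iff' o hT] at ho
  have hN' := isAbelJacobiKernel hN
  have h := tfae_powers hA hN' (fibreProperty hF) hT ho.1 ho.2 ho'
  have h1 : (KunnethConjecture H ∧ ∃ F : Filtrations C,
      BS.IsBlochBeilinsonOn H N (fun _ => True) F) ↔ (KunnethConjecture H ∧
        ∃ F : ∀ X : 𝒱.Obj, ℕ → ℕ → Submodule ℚ (C.A X),
          BB.IsBlochBeilinsonOn H N (fun _ => True) F) := by
    simp only [isBlochBeilinsonOn_iff]
  have h2 : ((∀ X : 𝒱.Obj, ∃ π : ℕ → C.A (X.prod X), IsChowKunneth H π) ∧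
        ∀ (X : 𝒱.Obj) (j : ℕ), 2 ≤ j → X.dim + 1 = 2 * j → ∀ π : ℕ → C.A (X.prod X),
          IsChowKunneth H π → ∀ z : C.A X, N.Has j z → InStep π j 2 z) ↔
      ((∀ X : 𝒱.Obj, ∃ π : ℕ → C.A (X.prod X), IsCK H X π) ∧ KernelInStep H N) := by
    rw [kernelInStep_iff hN]
    simp only [isChowKunneth_iff]
  tfae_have 1 ↔ 3 := h1.trans ((h.out 0 1).trans h2.symm)
  tfae_have 1 ↔ 4 := h1.trans (h.out 0 2)
  tfae_have 1 → 2 := by
    rintro ⟨hK, F, hF⟩
    refine ⟨hK, F, ⟨fun X j ν z hz => hF.anti X trivial j ν z hz,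
      fun X j z => hF.zero X trivial j z, fun X j => ⟨j + 1, fun z hz => hF.top X trivial j z hz⟩,
      fun X j ν Γ hΓ hk z hz => hF.shift X X trivial trivial j j ν Γ
        (by rw [add_sub_cancel_right]; exact hΓ) hk z hz⟩, fun X j _ _ z hz => ?_⟩
    exact (hF.two X trivial j z).2 hz
  tfae_have 2 → 3 := by
    rintro ⟨hK, F, hF, hF2⟩
    have hFm := toFiltration_motivic hF
    obtain ⟨hCK, hfil, -⟩ := Y110.main_forward hK hFm
    refine ⟨fun X => ?_, fun X j h2j hj π hπ z hz => ?_⟩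
    · obtain ⟨π, hπ⟩ := hCK X
      exact ⟨π, isChowKunneth_iff.2 hπ⟩
    · have hπ' := isChowKunneth_iff.1 hπ
      have h1 : z ∈ (toFiltration hF).F X j 2 := hF2 X j h2j hj z hz
      rw [hfil X π hπ' j 2, Y110.fil_eq_ckFil hπ' j 2] at h1
      exact inStep_iff.2 h1
  tfae_finish

end Pool.Agent.Y148.KL
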